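import Pool.Agent.Lib.MP_967fd7_co.Final

/-!
Strong Schur log-concavity of `s_{λ + n α}`: for every partition `λ`, integral vector `α` and
`n ≥ 1` the inequality holds for all `i ≥ λ_1 + (n - 1) |α_1|`, and in an explicit larger range.
-/

namespace MP967

theorem explicit_cond (lam : YoungDiagram) (α : ℕ →₀ ℤ) (n i : ℕ) (hn : 1 ≤ n)
    (hi : (lam.rowLen 0 : ℤ) + (n - 1) * |α 0| ≤ i) : Cond lam α n i := by
  by_cases ha : Antitone α
  · refine Or.inr ⟨ha, fun k hk => ?_⟩
    have h1 : lam.rowLen (k + 1) ≤ lam.rowLen k := lam.rowLen_anti k (k + 1) (by omega)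
    have h2 : prog lam α (n - 1) 0 ≤ i := by
      refine le_trans ?_ hi
      unfold prog
      have h5 : ((n - 1 : ℕ) : ℤ) = (n : ℤ) - 1 := by
        rw [Nat.cast_sub hn]
        simp
      rw [h5]
      have h6 : ((n : ℤ) - 1) * α 0 ≤ ((n : ℤ) - 1) * |α 0| :=
        mul_le_mul_of_nonneg_left (le_abs_self _) (by omega)
      linarith
    refine h2.trans ?_
    unfold prog
    have h3 : (lam.rowLen (k + 1) : ℤ) ≤ lam.rowLen k := by exact_mod_cast h1
    have h4 : ((n + i : ℕ) : ℤ) * 1 ≤ ((n + i : ℕ) : ℤ) * (α k - α (k + 1)) :=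
      mul_le_mul_of_nonneg_left (by omega) (by positivity)
    have h5 : (i : ℤ) ≤ ((n + i : ℕ) : ℤ) := by omega
    nlinarith
  · obtain ⟨k, hk⟩ : ∃ k, α k < α (k + 1) := by
      by_contra hcon
      push Not at hcon
      exact ha (antitone_nat_of_succ_le hcon)
    refine Or.inl ?_
    rintro ⟨μ, hμ⟩
    have h1 : μ.rowLen (k + 1) ≤ μ.rowLen k := μ.rowLen_anti k (k + 1) (by omega)
    have h2 := hμ k
    have h3 := hμ (k + 1)
    have h4 : (μ.rowLen (k + 1) : ℤ) ≤ μ.rowLen k := by exact_mod_cast h1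
    have h5 : lam.rowLen k ≤ lam.rowLen 0 := lam.rowLen_anti 0 k (Nat.zero_le k)
    have h6 : 0 ≤ ((n : ℤ) - 1) * |α 0| := mul_nonneg (by omega) (abs_nonneg _)
    have h7 : (lam.rowLen k : ℤ) ≤ i := by
      have : (lam.rowLen k : ℤ) ≤ lam.rowLen 0 := by exact_mod_cast h5
      linarith
    unfold prog at h2 h3
    have h8 : ((n + i + 1 : ℕ) : ℤ) * 1 ≤ ((n + i + 1 : ℕ) : ℤ) * (α (k + 1) - α k) :=
      mul_le_mul_of_nonneg_left (by omega) (by positivity)
    have h9 : (0 : ℤ) ≤ lam.rowLen (k + 1) := by positivity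
    push_cast at h2 h3 h8
    nlinarith

end MP967

theorem MP967.allButFinitelyMany
    (lam : YoungDiagram) (α : ℕ →₀ ℤ) (n i : ℕ) (hn : 1 ≤ n)
    (h : (lam.rowLen 0 : ℤ) + (n - 1) * |α 0| ≤ i ∨
      (¬ ∃ μ, MP967.IsShape μ (MP967.prog lam α (n + i + 1))) ∨
      (Antitone α ∧ ∀ k, α (k + 1) < α k →
        MP967.prog lam α (n - 1) 0 ≤
          MP967.prog lam α (n + i) k - MP967.prog lam α (n + i) (k + 1))) :
    MP967.SchurPositive
      (MP967.schurZ (MP967.prog lam α n) * MP967.schurZ (MP967.prog lam α (n + i))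
        - MP967.schurZ (MP967.prog lam α (n - 1)) *
          MP967.schurZ (MP967.prog lam α (n + i + 1))) := by
  rcases h with h | h
  · exact MP967.main_thm lam α n i hn (MP967.explicit_cond lam α n i hn h)
  · exact MP967.main_thm lam α n i hn h
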