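import Pool.Agent.Lib.MP_967fd7_co.Basic

/-! Monomials, Schur polynomials in `N` variables, and alternants.

Proof sketch: `alt_swap`: `mon N w = rename (swap k (k+1)) (mon N v)`, reindex the sum over `σ`.
`alt_delta_ne_zero`: the coefficient of `mon N (δ N)` is `1`, since `δ N` is injective below `N`
(or Vandermonde). `alt_mul`: `rename σ (mon v) * f = rename σ (mon v * f)` for symmetric `f`. -/

namespace MP967

/-- The monomial `x^v` in `N` variables. -/
noncomputable def mon (N : ℕ) (v : ℕ → ℕ) : MvPolynomial (Fin N) ℤ :=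
  MvPolynomial.monomial (Finsupp.equivFunOnFinite.symm (fun i : Fin N => v i)) 1

theorem mon_congr {N : ℕ} {v w : ℕ → ℕ} (h : ∀ i < N, v i = w i) : mon N v = mon N w := by
  have h1 : (fun i : Fin N => v i) = fun i : Fin N => w i := by
    funext i
    exact h i i.2
  unfold mon
  rw [h1]

theorem mon_mul (N : ℕ) (v w : ℕ → ℕ) : mon N v * mon N w = mon N (fun i => v i + w i) := by
  have h1 : (Finsupp.equivFunOnFinite.symm (fun i : Fin N => v i)
      + Finsupp.equivFunOnFinite.symm (fun i : Fin N => w i)) =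
      Finsupp.equivFunOnFinite.symm (fun i : Fin N => v i + w i) := by
    ext i
    simp
  unfold mon
  rw [MvPolynomial.monomial_mul, h1, one_mul]

/-- The Schur polynomial of shape `A` in `N` variables. -/
noncomputable def S (N : ℕ) (A : ℕ → ℕ) : MvPolynomial (Fin N) ℤ := ∑ c ∈ gt N A, mon N (wt c)

/-- The alternant `a_v` in `N` variables. -/
noncomputable def alt (N : ℕ) (v : ℕ → ℕ) : MvPolynomial (Fin N) ℤ :=
  ∑ σ : Equiv.Perm (Fin N), ((Equiv.Perm.sign σ : ℤˣ) : ℤ) • MvPolynomial.rename σ (mon N v)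

theorem alt_congr {N : ℕ} {v w : ℕ → ℕ} (h : ∀ i < N, v i = w i) : alt N v = alt N w := by
  unfold alt
  rw [mon_congr h]

theorem T3_rename_mon {N : ℕ} (σ : Equiv.Perm (Fin N)) (v : ℕ → ℕ) :
    MvPolynomial.rename σ (mon N v) =
      MvPolynomial.monomial (Finsupp.equivFunOnFinite.symm (fun i : Fin N => v (σ.symm i))) 1 := by
  unfold mon
  rw [MvPolynomial.rename_monomial]
  have h1 : Finsupp.mapDomain σ (Finsupp.equivFunOnFinite.symm (fun i : Fin N => v i)) =
      Finsupp.equivFunOnFinite.symm (fun i : Fin N => v (σ.symm i)) := by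
    ext i
    rw [Finsupp.mapDomain_equiv_apply]
    simp
  rw [h1]

/-- Exchanging two neighbouring exponents changes the sign. -/
theorem alt_swap {N k : ℕ} (hk : k + 1 < N) {v w : ℕ → ℕ} (h1 : w k = v (k + 1))
    (h2 : w (k + 1) = v k) (h3 : ∀ j, j ≠ k → j ≠ k + 1 → w j = v j) : alt N w = - alt N v := by
  have hne : (⟨k, by omega⟩ : Fin N) ≠ ⟨k + 1, hk⟩ := by
    intro h
    have := congrArg Fin.val h
    simp at this
  have hren : mon N w =
      MvPolynomial.rename (Equiv.swap (⟨k, by omega⟩ : Fin N) ⟨k + 1, hk⟩) (mon N v) := by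
    rw [T3_rename_mon]
    unfold mon
    have h4 : (fun i : Fin N => w i) = fun i : Fin N =>
        v ((Equiv.swap (⟨k, by omega⟩ : Fin N) ⟨k + 1, hk⟩).symm i) := ?_
    · rw [h4]
    funext i
    rw [Equiv.symm_swap]
    by_cases hi : i = ⟨k, by omega⟩
    · subst hi
      rw [Equiv.swap_apply_left]
      exact h1
    · by_cases hi' : i = ⟨k + 1, hk⟩
      · subst hi'
        rw [Equiv.swap_apply_right]
        exact h2
      · rw [Equiv.swap_apply_of_ne_of_ne hi hi']
        apply h3
        · intro h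
          exact hi (Fin.ext h)
        · intro h
          exact hi' (Fin.ext h)
  have key : alt N w = ∑ σ : Equiv.Perm (Fin N), ((Equiv.Perm.sign σ : ℤˣ) : ℤ) •
      MvPolynomial.rename (σ * Equiv.swap (⟨k, by omega⟩ : Fin N) ⟨k + 1, hk⟩) (mon N v) := by
    unfold alt
    rw [hren]
    apply Finset.sum_congr rfl
    intro σ _
    rw [MvPolynomial.rename_rename]
    rfl
  rw [key]
  unfold alt
  rw [← Finset.sum_neg_distrib]
  apply Fintype.sum_equiv (Equiv.mulRight (Equiv.swap (⟨k, by omega⟩ : Fin N) ⟨k + 1, hk⟩))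
  intro σ
  rw [Equiv.coe_mulRight, Equiv.Perm.sign_mul, Equiv.Perm.sign_swap hne]
  simp

/-- The exponents `N-1, N-2, …, 0`. -/
def δ (N : ℕ) (i : ℕ) : ℕ := N - 1 - i

theorem alt_delta_ne_zero (N : ℕ) : alt N (δ N) ≠ 0 := by
  classical
  intro h
  have h1 : MvPolynomial.coeff (Finsupp.equivFunOnFinite.symm (fun i : Fin N => δ N i))
      (alt N (δ N)) = 1 := by
    unfold alt
    rw [MvPolynomial.coeff_sum, Finset.sum_eq_single (1 : Equiv.Perm (Fin N))]
    · rw [T3_rename_mon]
      simp
      rfl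
    · intro σ _ hσ
      rw [T3_rename_mon, MvPolynomial.coeff_smul, MvPolynomial.coeff_monomial, if_neg, smul_zero]
      intro he
      apply hσ
      have h2 := Finsupp.equivFunOnFinite.symm.injective he
      have h3 : ∀ i : Fin N, σ.symm i = i := by
        intro i
        have h4 := congrFun h2 i
        simp only [δ] at h4
        have h5 := i.2
        have h6 := (σ.symm i).2
        apply Fin.ext
        omega
      ext i
      have h4 := h3 (σ i)
      rw [Equiv.symm_apply_apply] at h4
      rw [← h4]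
      rfl
    · intro h
      exact absurd (Finset.mem_univ _) h
  rw [h] at h1
  simp at h1

/-- Multiplication of an alternant by a symmetric sum of monomials. -/
theorem alt_mul {N : ℕ} {ι : Type*} (X : Finset ι) (w : ι → ℕ → ℕ)
    (hs : (∑ x ∈ X, mon N (w x)).IsSymmetric) (v : ℕ → ℕ) :
    alt N v * ∑ x ∈ X, mon N (w x) = ∑ x ∈ X, alt N (fun i => v i + w x i) := by
  unfold alt
  rw [Finset.sum_mul, Finset.sum_comm]
  apply Finset.sum_congr rfl
  intro σ _
  have h1 := hs σ
  rw [smul_mul_assoc]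
  conv_lhs => rw [← h1]
  rw [← map_mul, Finset.mul_sum, map_sum, Finset.smul_sum]
  apply Finset.sum_congr rfl
  intro x _
  rw [mon_mul]

end MP967
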