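import Pool.Agent.Lib.MP_967fd7_co.Defs

/-! Basic facts on chains. -/

namespace MP967

theorem IsGT.vanish {N : ℕ} {A : ℕ → ℕ} {c : ℕ → ℕ → ℕ} (h : IsGT N A c) :
    ∀ k r, k ≤ r → c k r = 0 := by
  intro k
  induction k with
  | zero => intro r _; exact h.zero r
  | succ k ih =>
    intro r hr
    obtain ⟨r, rfl⟩ : ∃ r', r = r' + 1 := ⟨r - 1, by omega⟩
    have h1 := h.inter k r
    have h2 := ih r (by omega)
    omega

theorem IsGT.mono_le {N : ℕ} {A : ℕ → ℕ} {c : ℕ → ℕ → ℕ} (h : IsGT N A c) (r : ℕ) :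
    Monotone (fun k => c k r) := monotone_nat_of_le_succ (fun k => h.mono k r)

theorem IsGT.le_top {N : ℕ} {A : ℕ → ℕ} {c : ℕ → ℕ → ℕ} (h : IsGT N A c) (k r : ℕ) :
    c k r ≤ A r := by
  have h1 : c k r ≤ c (max k N) r := h.mono_le r (le_max_left k N)
  rw [h.top _ (le_max_right k N)] at h1
  exact h1

theorem IsGT.anti {N : ℕ} {A : ℕ → ℕ} {c : ℕ → ℕ → ℕ} (h : IsGT N A c) (k : ℕ) :
    Antitone (c k) := antitone_nat_of_succ_le (fun r => le_trans (h.mono k (r + 1)) (h.inter k r))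

theorem IsGT.shape_zero {N : ℕ} {A : ℕ → ℕ} {c : ℕ → ℕ → ℕ} (h : IsGT N A c) {r : ℕ}
    (hr : N ≤ r) : A r = 0 := by
  have h1 := h.vanish N r hr
  rwa [h.top N le_rfl] at h1

theorem IsGT.shape_anti {N : ℕ} {A : ℕ → ℕ} {c : ℕ → ℕ → ℕ} (h : IsGT N A c) : Antitone A := by
  have h1 := h.anti N
  rwa [h.top N le_rfl] at h1

theorem IsGT.weaken {N M : ℕ} {A : ℕ → ℕ} {c : ℕ → ℕ → ℕ} (h : IsGT N A c) (hNM : N ≤ M) :
    IsGT M A c := ⟨h.zero, h.mono, h.inter, fun k hk => h.top k (hNM.trans hk)⟩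

theorem IsGT.wt_eq {N : ℕ} {A : ℕ → ℕ} {c : ℕ → ℕ → ℕ} (h : IsGT N A c) (k M : ℕ) (hM : k < M) :
    (wt c k : ℤ) = ∑ r ∈ Finset.range M, ((c (k + 1) r : ℤ) - c k r) := by
  have h1 : ∀ r ∈ Finset.range M, r ∉ Finset.range (k + 1) → ((c (k + 1) r : ℤ) - c k r) = 0 := by
    intro r _ hr
    rw [Finset.mem_range, not_lt] at hr
    rw [h.vanish (k + 1) r hr, h.vanish k r (by omega)]
    simp
  rw [← Finset.sum_subset (Finset.range_subset_range.2 (Nat.succ_le_of_lt hM)) h1]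
  unfold wt
  push_cast
  apply Finset.sum_congr rfl
  intro r _
  rw [Nat.cast_sub (h.mono k r)]

theorem IsGT.wt_zero {N : ℕ} {A : ℕ → ℕ} {c : ℕ → ℕ → ℕ} (h : IsGT N A c) {k : ℕ} (hk : N ≤ k) :
    wt c k = 0 := by
  unfold wt
  rw [h.top k hk, h.top (k + 1) (by omega)]
  simp

theorem finite_GT (N : ℕ) (A : ℕ → ℕ) : {c | IsGT N A c}.Finite := by
  refine Set.Finite.of_injOn (f := fun (c : ℕ → ℕ → ℕ) (p : Fin N × Fin N) => c p.1 p.2)
    (t := {g : Fin N × Fin N → ℕ | ∀ p, g p ∈ Set.Iic (A p.2)}) ?_ ?_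
    (Set.Finite.pi' fun (p : Fin N × Fin N) => Set.finite_Iic (A p.2))
  · intro c hc p
    exact IsGT.le_top hc p.1 p.2
  · intro c hc c' hc' h
    funext k r
    have hc1 : IsGT N A c := hc
    have hc2 : IsGT N A c' := hc'
    by_cases hk : N ≤ k
    · rw [hc1.top k hk, hc2.top k hk]
    · by_cases hr : N ≤ r
      · rw [hc1.vanish k r (by omega), hc2.vanish k r (by omega)]
      · exact congrFun h (⟨k, by omega⟩, ⟨r, by omega⟩)

/-- The finite set of all chains of shape `A` with `N` letters. -/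
noncomputable def gt (N : ℕ) (A : ℕ → ℕ) : Finset (ℕ → ℕ → ℕ) := (finite_GT N A).toFinset

theorem mem_gt {N : ℕ} {A : ℕ → ℕ} {c : ℕ → ℕ → ℕ} : c ∈ gt N A ↔ IsGT N A c := by
  simp [gt]

end MP967
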