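import Pool.Agent.Lib.MP_967fd7_co.Tab

/-! Young diagrams and functions; Schur positivity of sums.

Proof sketch: `schurZ_eq`: by `exists_diagram` there is a shape; the chosen shape has row lengths `A`,
apply `schur_eq`. `schurPositive_sum`: choose diagrams `μ x`, let `a = ∑ x ∈ X, single (μ x) 1`. -/

namespace MP967

/-- Every partition given by a function is a Young diagram. -/
theorem exists_diagram {A : ℕ → ℕ} (hA : Antitone A) {N : ℕ} (hN : ∀ r, N ≤ r → A r = 0) :
    ∃ μ : YoungDiagram, ∀ r, μ.rowLen r = A r := by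
  let μ : YoungDiagram :=
    { cells := (Finset.range N ×ˢ Finset.range (A 0)).filter (fun x => x.2 < A x.1)
      isLowerSet := by
        rintro ⟨i, j⟩ ⟨i', j'⟩ hle hmem
        have hi : i' ≤ i := hle.1
        have hj : j' ≤ j := hle.2
        simp only [Finset.coe_filter, Finset.mem_product, Finset.mem_range,
          Set.mem_ofPred_eq] at hmem ⊢
        have h1 : A i ≤ A i' := hA hi
        refine ⟨⟨by omega, by omega⟩, by omega⟩ }
  have hmem : ∀ i j, (i, j) ∈ μ ↔ j < A i := by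
    intro i j
    have h1 : (i, j) ∈ μ ↔ (i, j) ∈ (Finset.range N ×ˢ Finset.range (A 0)).filter
        (fun x => x.2 < A x.1) := Iff.rfl
    rw [h1]
    simp only [Finset.mem_filter, Finset.mem_product, Finset.mem_range]
    constructor
    · exact fun h => h.2
    · intro h
      have h2 : A i ≤ A 0 := hA (Nat.zero_le i)
      refine ⟨⟨?_, by omega⟩, h⟩
      by_contra h3
      rw [hN i (by omega)] at h
      omega
  refine ⟨μ, fun r => ?_⟩
  refine eq_of_forall_lt_iff fun j => ?_
  rw [← YoungDiagram.mem_iff_lt_rowLen, hmem]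

theorem diagram_ext {μ ν : YoungDiagram} (h : ∀ r, μ.rowLen r = ν.rowLen r) : μ = ν := by
  ext ⟨i, j⟩
  rw [YoungDiagram.mem_cells, YoungDiagram.mem_cells, YoungDiagram.mem_iff_lt_rowLen,
    YoungDiagram.mem_iff_lt_rowLen, h i]

theorem rowLen_zero (μ : YoungDiagram) : ∃ N, ∀ r, N ≤ r → μ.rowLen r = 0 := by
  refine ⟨μ.colLen 0, fun r hr => ?_⟩
  by_contra h
  have h1 : (r, 0) ∈ μ := YoungDiagram.mem_iff_lt_rowLen.2 (Nat.pos_of_ne_zero h)
  have h2 := YoungDiagram.mem_iff_lt_colLen.1 h1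
  omega

/-- The term of the sequence, in case it is a partition. -/
theorem schurZ_eq {v : ℕ → ℤ} {A : ℕ → ℕ} (hA : Antitone A) {N : ℕ} (hN : ∀ r, N ≤ r → A r = 0)
    (hv : ∀ r, (A r : ℤ) = v r) : schurZ v = schurF A := by
  obtain ⟨μ, hμ⟩ := exists_diagram hA hN
  have h : ∃ μ : YoungDiagram, IsShape μ v := ⟨μ, fun r => by rw [hμ r, hv r]⟩
  unfold schurZ
  rw [dif_pos h, schur_eq]
  congr 1
  funext r
  have h1 := h.choose_spec r
  rw [← hv r] at h1
  exact_mod_cast h1

theorem schurZ_zero {v : ℕ → ℤ} (h : ¬ ∃ μ, IsShape μ v) : schurZ v = 0 := by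
  unfold schurZ
  rw [dif_neg h]

/-- A finite sum of Schur functions is Schur positive. -/
theorem schurPositive_sum {ι : Type*} (X : Finset ι) (A : ι → ℕ → ℕ)
    (hA : ∀ x ∈ X, Antitone (A x)) (hN : ∀ x ∈ X, ∃ N, ∀ r, N ≤ r → A x r = 0) :
    SchurPositive (∑ x ∈ X, schurF (A x)) := by
  classical
  have hex : ∀ x, ∃ μ : YoungDiagram, x ∈ X → ∀ r, μ.rowLen r = A x r := by
    intro x
    by_cases hx : x ∈ X
    · obtain ⟨N, hN'⟩ := hN x hx
      obtain ⟨μ, hμ⟩ := exists_diagram (hA x hx) hN'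
      exact ⟨μ, fun _ => hμ⟩
    · exact ⟨⊥, fun h => absurd h hx⟩
  choose μ hμ using hex
  refine ⟨∑ x ∈ X, Finsupp.single (μ x) 1, ?_, ?_⟩
  · intro ν
    rw [Finsupp.finsetSum_apply]
    refine Finset.sum_nonneg fun x _ => ?_
    rw [Finsupp.single_apply]
    split_ifs <;> norm_num
  · rw [← Finsupp.sum_finsetSum_index (h := fun μ q => q • schur μ)
      (fun _ => zero_smul ℚ _) (fun _ _ _ => add_smul _ _ _)]
    refine Finset.sum_congr rfl fun x hx => ?_
    rw [Finsupp.sum_single_index (h := fun μ q => q • schur μ) (zero_smul ℚ _), one_smul,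
      schur_eq]
    congr 1
    funext r
    exact (hμ x hx r).symm

end MP967
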