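import Pool.Agent.Lib.MP_967fd7_co.Flip

/-! The weight of the flipped chain.

Proof sketch: write `c'` for the flipped chain and `e = - D B c ρ k > 0`. Choose `M` large
(`M > ρ`, `M > k + 2`) and use `IsGT.wt_eq` with this `M`. By `sum_lo_up_from` the sum of
`lo c k s` over `ρ ≤ s < M` plus the sum of `up c k s` over `ρ < s ≤ M` is the sum of `c (k+2) s`
over `ρ < s ≤ M` plus the sum of `c k s` over `ρ ≤ s < M` (everything vanishes for `s ≥ k + 2`), so
the sum of row `k+1` of `c'` minus that of row `k` is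
`∑_{s<ρ} (c (k+1) s - c k s) + (e - 1) + ∑_{s>ρ} (c (k+2) s - c (k+1) s)`, which by the definition of
`e = -D` is `wt c (k+1) - (B k - B (k+1)) - 1`. The second statement follows since
`wt c' k + wt c' (k+1) = wt c k + wt c (k+1)` (both are the sum of level `k+2` minus that of level
`k`). -/

namespace MP967

theorem T6_split (f : ℕ → ℤ) (ρ m : ℕ) : ∑ r ∈ Finset.range (ρ + 1 + m), f r =
    ∑ r ∈ Finset.range ρ, f r + f ρ + ∑ t ∈ Finset.range m, f (ρ + 1 + t) := by
  rw [Finset.sum_range_add, Finset.sum_range_succ]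

theorem flip_wt_left {N : ℕ} {A B : ℕ → ℕ} {c : ℕ → ℕ → ℕ} {ρ k : ℕ} (h : IsGT N A c)
    (hB : Antitone B) (hs : Sel N B c ρ k) :
    B k + wt (flip B c ρ k) k + 1 = B (k + 1) + wt c (k + 1) := by
  have hF := flip_GT h hB hs
  have h1 := hF.wt_eq k (ρ + 1 + (k + 2)) (by omega)
  have h2 := h.wt_eq (k + 1) (ρ + 1 + (k + 2)) (by omega)
  have hck : flip B c ρ k k = c k := by
    unfold flip
    rw [Function.update_of_ne (by omega)]
  have hck1 : flip B c ρ k (k + 1) = fun s => if s < ρ then c (k + 1) s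
      else if s = ρ then lo c k ρ + (-(D B c ρ k)).toNat - 1
      else up c k s + lo c k s - c (k + 1) s := by
    unfold flip
    rw [Function.update_self]
  rw [hck, hck1, T6_split] at h1
  rw [T6_split] at h2
  have hneg := hs.neg
  have e1 : ∑ r ∈ Finset.range ρ, (((if r < ρ then c (k + 1) r
      else if r = ρ then lo c k ρ + (-(D B c ρ k)).toNat - 1
      else up c k r + lo c k r - c (k + 1) r : ℕ) : ℤ) - c k r) =
      ∑ r ∈ Finset.range ρ, ((c (k + 1) r : ℤ) - c k r) := by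
    refine Finset.sum_congr rfl fun r hr => ?_
    rw [if_pos (Finset.mem_range.1 hr)]
  have e2 : (((if ρ < ρ then c (k + 1) ρ
      else if ρ = ρ then lo c k ρ + (-(D B c ρ k)).toNat - 1
      else up c k ρ + lo c k ρ - c (k + 1) ρ : ℕ) : ℤ) - c k ρ) =
      (lo c k ρ : ℤ) - D B c ρ k - 1 - c k ρ := by
    rw [if_neg (lt_irrefl ρ), if_pos rfl]
    omega
  have e3 : ∑ t ∈ Finset.range (k + 2), (((if ρ + 1 + t < ρ then c (k + 1) (ρ + 1 + t)
      else if ρ + 1 + t = ρ then lo c k ρ + (-(D B c ρ k)).toNat - 1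
      else up c k (ρ + 1 + t) + lo c k (ρ + 1 + t) - c (k + 1) (ρ + 1 + t) : ℕ) : ℤ) -
        c k (ρ + 1 + t)) =
      ∑ t ∈ Finset.range (k + 2), (up c k (ρ + 1 + t) : ℤ) +
      ∑ t ∈ Finset.range (k + 2), (lo c k (ρ + 1 + t) : ℤ) -
      ∑ t ∈ Finset.range (k + 2), (c (k + 1) (ρ + 1 + t) : ℤ) -
      ∑ t ∈ Finset.range (k + 2), (c k (ρ + 1 + t) : ℤ) := by
    rw [← Finset.sum_add_distrib, ← Finset.sum_sub_distrib, ← Finset.sum_sub_distrib]
    refine Finset.sum_congr rfl fun t _ => ?_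
    rw [if_neg (by omega), if_neg (by omega)]
    have h3 := h.lo_le k (ρ + 1 + t)
    have h4 := h.le_up k (ρ + 1 + t)
    omega
  have h5 := sum_lo_up_from c k ρ (k + 2 + 1)
  rw [Finset.sum_range_succ' (fun s => lo c k (ρ + s)),
    Finset.sum_range_succ (fun s => up c k (ρ + 1 + s)),
    Finset.sum_range_succ (fun s => c (k + 2) (ρ + 1 + s)),
    Finset.sum_range_succ' (fun s => c k (ρ + s))] at h5
  have hv : c (k + 2) (ρ + 1 + (k + 2)) = 0 := h.vanish (k + 2) _ (by omega)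
  have hu : up c k (ρ + 1 + (k + 2)) = 0 := by
    unfold up
    rw [if_neg (by omega), hv]
    simp
  rw [hv, hu] at h5
  simp only [add_zero] at h5
  have e5 : ∀ (f : ℕ → ℕ), ∑ s ∈ Finset.range (k + 2), f (ρ + (s + 1)) =
      ∑ s ∈ Finset.range (k + 2), f (ρ + 1 + s) := by
    intro f
    refine Finset.sum_congr rfl fun s _ => ?_
    congr 1
    ring
  rw [e5 (lo c k), e5 (c k)] at h5
  have h5' : (∑ s ∈ Finset.range (k + 2), (lo c k (ρ + 1 + s) : ℤ)) + lo c k ρ +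
      ∑ s ∈ Finset.range (k + 2), (up c k (ρ + 1 + s) : ℤ) =
      ∑ s ∈ Finset.range (k + 2), (c (k + 2) (ρ + 1 + s) : ℤ) +
      ((∑ s ∈ Finset.range (k + 2), (c k (ρ + 1 + s) : ℤ)) + c k ρ) := by
    exact_mod_cast h5
  rw [e1, e2, e3] at h1
  have hD : D B c ρ k = (B k : ℤ) - B (k + 1) +
      ∑ s ∈ Finset.range ρ, ((c (k + 1) s : ℤ) - c k s) -
      (∑ s ∈ Finset.range ρ, ((c (k + 2) s : ℤ) - c (k + 1) s) +
        ((c (k + 2) ρ : ℤ) - c (k + 1) ρ)) := by
    unfold D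
    rw [Finset.sum_range_succ (fun s => (c (k + 2) s : ℤ) - c (k + 1) s)]
  have e6 : ∑ t ∈ Finset.range (k + 2), ((c (k + 1 + 1) (ρ + 1 + t) : ℤ) - c (k + 1) (ρ + 1 + t)) =
      ∑ s ∈ Finset.range (k + 2), (c (k + 2) (ρ + 1 + s) : ℤ) -
      ∑ t ∈ Finset.range (k + 2), (c (k + 1) (ρ + 1 + t) : ℤ) := by
    rw [← Finset.sum_sub_distrib]
  rw [e6] at h2
  have e7 : ((k + 1 + 1 : ℕ)) = k + 2 := rfl
  simp only [e7] at h2
  have h6 : ((B k : ℤ) + wt (flip B c ρ k) k + 1) = B (k + 1) + wt c (k + 1) := by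
    rw [h1, h2, hD]
    linarith
  exact_mod_cast h6

theorem flip_wt_right {N : ℕ} {A B : ℕ → ℕ} {c : ℕ → ℕ → ℕ} {ρ k : ℕ} (h : IsGT N A c)
    (hB : Antitone B) (hs : Sel N B c ρ k) :
    B (k + 1) + wt (flip B c ρ k) (k + 1) = B k + wt c k + 1 := by
  have hF := flip_GT h hB hs
  have h0 := flip_wt_left h hB hs
  have h1 := hF.wt_eq k (k + 2) (by omega)
  have h2 := hF.wt_eq (k + 1) (k + 2) (by omega)
  have h3 := h.wt_eq k (k + 2) (by omega)
  have h4 := h.wt_eq (k + 1) (k + 2) (by omega)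
  have hck : flip B c ρ k k = c k := by
    unfold flip
    rw [Function.update_of_ne (by omega)]
  have hck2 : flip B c ρ k (k + 1 + 1) = c (k + 1 + 1) := by
    unfold flip
    rw [Function.update_of_ne (by omega)]
  rw [Finset.sum_sub_distrib] at h1 h2 h3 h4
  rw [hck] at h1
  rw [hck2] at h2
  omega

end MP967
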