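import Pool.Agent.Lib.MP_967fd7_co.Symm
import Pool.Agent.Lib.MP_967fd7_co.FlipWt

/-! The alternants of the bad chains cancel.

Proof sketch. `good_iff`: if `N ≤ k + 1` then levels `k+1`, `k+2` are both `A`, so the second sum of
`D` vanishes and the rest is nonnegative. `sum_bad`: `Finset.sum_involution` with
`c ↦ flip B c ρ k`, where `(ρ, k)` is chosen from `exists_sel` (it is the same pair for the flipped
chain by `flip_sel` and `Sel.unique`); by `flip_wt_left`, `flip_wt_right` and `wt_update_other` the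
exponent vectors `B + δ + wt` of the two chains differ by the exchange of the entries `k`, `k+1`, so
`alt_swap` gives opposite alternants; a fixed point has `alt = - alt`, so `alt = 0`. -/

namespace MP967

/-- For a chain with `N` letters only the letters `k` with `k + 1 < N` matter. -/
theorem good_iff {N : ℕ} {A B : ℕ → ℕ} {c : ℕ → ℕ → ℕ} (h : IsGT N A c) (hB : Antitone B) :
    Good B c ↔ ∀ ρ k, k + 1 < N → 0 ≤ D B c ρ k := by
  refine ⟨fun hg ρ k _ => hg ρ k, fun hg ρ k => ?_⟩
  by_cases hk : k + 1 < N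
  · exact hg ρ k hk
  · rw [not_lt] at hk
    unfold D
    rw [h.top (k + 1) hk, h.top (k + 2) (by omega)]
    have h1 : (B (k + 1) : ℤ) ≤ B k := by exact_mod_cast hB (Nat.le_succ k)
    have h2 : 0 ≤ ∑ s ∈ Finset.range ρ, ((A s : ℤ) - c k s) := by
      refine Finset.sum_nonneg fun s _ => ?_
      have h3 : (c k s : ℤ) ≤ A s := by exact_mod_cast h.le_top k s
      linarith
    have h4 : ∑ s ∈ Finset.range (ρ + 1), ((A s : ℤ) - A s) = 0 := by simp
    rw [h4]
    linarith

theorem T7_exists {N : ℕ} {A B : ℕ → ℕ} {c : ℕ → ℕ → ℕ} (h : IsGT N A c) (hB : Antitone B)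
    (hbad : ¬ Good B c) : ∃ p : ℕ × ℕ, Sel N B c p.1 p.2 := by
  rw [good_iff h hB] at hbad
  obtain ⟨ρ, k, hs⟩ := exists_sel hbad
  exact ⟨(ρ, k), hs⟩

theorem T7_alt {N : ℕ} {A B : ℕ → ℕ} {c : ℕ → ℕ → ℕ} {ρ k : ℕ} (h : IsGT N A c)
    (hB : Antitone B) (hs : Sel N B c ρ k) :
    alt N (fun i => B i + δ N i + wt (flip B c ρ k) i) =
      - alt N (fun i => B i + δ N i + wt c i) := by
  have h1 := flip_wt_left h hB hs
  have h2 := flip_wt_right h hB hs
  have h3 := hs.lt
  apply alt_swap hs.lt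
  · unfold δ
    omega
  · unfold δ
    omega
  · intro j hj1 hj2
    simp only [flip]
    rw [wt_update_other c k _ hj1 hj2]

open Classical in
theorem sum_bad {N : ℕ} (A : ℕ → ℕ) {B : ℕ → ℕ} (hB : Antitone B) :
    ∑ c ∈ (gt N A).filter (fun c => ¬ Good B c), alt N (fun i => B i + δ N i + wt c i) = 0 := by
  have hmem : ∀ c, c ∈ (gt N A).filter (fun c => ¬ Good B c) → IsGT N A c ∧ ¬ Good B c := by
    intro c hc
    rw [Finset.mem_filter, mem_gt] at hc
    exact hc
  have hsel : ∀ c (hc : c ∈ (gt N A).filter (fun c => ¬ Good B c)),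
      Sel N B c (T7_exists (hmem c hc).1 hB (hmem c hc).2).choose.1
        (T7_exists (hmem c hc).1 hB (hmem c hc).2).choose.2 := fun c hc =>
    (T7_exists (hmem c hc).1 hB (hmem c hc).2).choose_spec
  have hg : ∀ c (hc : c ∈ (gt N A).filter (fun c => ¬ Good B c)),
      flip B c (T7_exists (hmem c hc).1 hB (hmem c hc).2).choose.1
        (T7_exists (hmem c hc).1 hB (hmem c hc).2).choose.2 ∈
          (gt N A).filter (fun c => ¬ Good B c) := by
    intro c hc
    rw [Finset.mem_filter, mem_gt]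
    refine ⟨flip_GT (hmem c hc).1 hB (hsel c hc), fun hgood => ?_⟩
    have h1 := (flip_sel (hmem c hc).1 hB (hsel c hc)).neg
    exact absurd (hgood _ _) (not_le.2 h1)
  refine Finset.sum_involution
    (fun c hc => flip B c (T7_exists (hmem c hc).1 hB (hmem c hc).2).choose.1
        (T7_exists (hmem c hc).1 hB (hmem c hc).2).choose.2) ?_ ?_ hg ?_
  · intro c hc
    rw [T7_alt (hmem c hc).1 hB (hsel c hc)]
    exact add_neg_cancel _
  · intro c hc hne heq
    have h1 := T7_alt (hmem c hc).1 hB (hsel c hc)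
    rw [heq] at h1
    apply hne
    have h2 : (2 : MvPolynomial (Fin N) ℤ) * alt N (fun i => B i + δ N i + wt c i) = 0 := by
      rw [two_mul]
      nth_rewrite 1 [h1]
      exact neg_add_cancel _
    rcases mul_eq_zero.1 h2 with h3 | h3
    · exact absurd h3 two_ne_zero
    · exact h3
  · intro c hc
    have h1 := flip_sel (hmem c hc).1 hB (hsel c hc)
    obtain ⟨e1, e2⟩ := Sel.unique (hsel _ (hg c hc)) h1
    rw [e1, e2]
    exact flip_flip (hmem c hc).1 hB (hsel c hc)

open Classical in
theorem alt_mul_S_good {N : ℕ} (A : ℕ → ℕ) {B : ℕ → ℕ} (hB : Antitone B) :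
    alt N (fun i => B i + δ N i) * S N A =
      ∑ c ∈ (gt N A).filter (fun c => Good B c), alt N (fun i => B i + δ N i + wt c i) := by
  rw [alt_mul_S, ← Finset.sum_filter_add_sum_filter_not (gt N A) (fun c => Good B c), sum_bad A hB,
    add_zero]

end MP967
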