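import Pool.Agent.Lib.MP_967fd7_co.Defs

/-! The condition of the theorem, and that it holds for all large `i`.

Proof sketch: if `α` is not antitone, there is `k` with `α k < α (k+1)` and row `k+1` of
`λ + (n+i+1) α` is longer than row `k` for large `i`, so it is not a shape (row lengths of a Young
diagram are antitone). If `α` is antitone, there are only finitely many `k` with `α (k+1) < α k` and
for each of them the right hand side is at least `(n+i) (α k - α (k+1)) ≥ n + i`. -/

namespace MP967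

/-- The condition of the theorem. -/
def Cond (lam : YoungDiagram) (α : ℕ →₀ ℤ) (n i : ℕ) : Prop :=
  (¬ ∃ μ, IsShape μ (prog lam α (n + i + 1))) ∨
    (Antitone α ∧ ∀ k, α (k + 1) < α k →
      prog lam α (n - 1) 0 ≤ prog lam α (n + i) k - prog lam α (n + i) (k + 1))

theorem eventually_cond (lam : YoungDiagram) (α : ℕ →₀ ℤ) (n : ℕ) :
    ∃ i0, ∀ i, i0 ≤ i → Cond lam α n i := by
  by_cases ha : Antitone α
  · refine ⟨(prog lam α (n - 1) 0).toNat, fun i hi => Or.inr ⟨ha, fun k hk => ?_⟩⟩
    have h1 : lam.rowLen (k + 1) ≤ lam.rowLen k := lam.rowLen_anti k (k + 1) (by omega)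
    have h2 : prog lam α (n - 1) 0 ≤ i := by omega
    refine h2.trans ?_
    unfold prog
    have h3 : (lam.rowLen (k + 1) : ℤ) ≤ lam.rowLen k := by exact_mod_cast h1
    have h4 : ((n + i : ℕ) : ℤ) * 1 ≤ ((n + i : ℕ) : ℤ) * (α k - α (k + 1)) :=
      mul_le_mul_of_nonneg_left (by omega) (by positivity)
    have h5 : (i : ℤ) ≤ ((n + i : ℕ) : ℤ) := by omega
    nlinarith
  · obtain ⟨k, hk⟩ : ∃ k, α k < α (k + 1) := by
      by_contra hcon
      push Not at hcon
      exact ha (antitone_nat_of_succ_le hcon)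
    refine ⟨lam.rowLen k, fun i hi => Or.inl ?_⟩
    rintro ⟨μ, hμ⟩
    have h1 : μ.rowLen (k + 1) ≤ μ.rowLen k := μ.rowLen_anti k (k + 1) (by omega)
    have h2 := hμ k
    have h3 := hμ (k + 1)
    have h4 : (μ.rowLen (k + 1) : ℤ) ≤ μ.rowLen k := by exact_mod_cast h1
    rw [h2, h3] at h4
    unfold prog at h4
    have h5 : ((n + i + 1 : ℕ) : ℤ) * 1 ≤ ((n + i + 1 : ℕ) : ℤ) * (α (k + 1) - α k) :=
      mul_le_mul_of_nonneg_left (by omega) (by positivity)
    have h6 : (lam.rowLen k : ℤ) < ((n + i + 1 : ℕ) : ℤ) := by omega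
    have h7 : (0 : ℤ) ≤ lam.rowLen (k + 1) := by positivity
    nlinarith

end MP967
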