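import Mathlib

/-! Definitions for `MP_967fd7_co`: Schur functions as generating functions of semistandard Young
tableaux, Schur positivity, and the terms of the sequence of the problem. -/

namespace MP967

/-- The Schur function of the partition `μ` (a Young diagram), as a power series in the variables
`x_0, x_1, x_2, …`: the coefficient of `x^w` is the number of semistandard Young tableaux of shape
`μ` that contain each number `k` exactly `w k` times. -/
noncomputable def schur (μ : YoungDiagram) : MvPowerSeries ℕ ℚ := fun w : ℕ →₀ ℕ =>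
  (Nat.card {T : SemistandardYoungTableau μ //
    ∀ k : ℕ, (μ.cells.filter (fun x => T x.1 x.2 = k)).card = w k} : ℚ)

/-- Schur positivity: a finite combination of Schur functions with nonnegative coefficients. -/
def SchurPositive (f : MvPowerSeries ℕ ℚ) : Prop :=
  ∃ a : YoungDiagram →₀ ℚ, (∀ μ, 0 ≤ a μ) ∧ f = a.sum (fun μ q => q • schur μ)

/-- The integer vector `v` is the partition `μ`: the rows of `μ` have the lengths `v 0, v 1, …`. -/
def IsShape (μ : YoungDiagram) (v : ℕ → ℤ) : Prop := ∀ r, (μ.rowLen r : ℤ) = v r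

open Classical in
/-- The Schur function `s_v` of an integer vector `v`: it is `s_μ` if `v` is the partition `μ`, and
`0` if `v` is not a partition. -/
noncomputable def schurZ (v : ℕ → ℤ) : MvPowerSeries ℕ ℚ :=
  if h : ∃ μ : YoungDiagram, IsShape μ v then schur h.choose else 0

/-- The integer vector `λ + n α`. -/
def prog (lam : YoungDiagram) (α : ℕ → ℤ) (n : ℕ) (r : ℕ) : ℤ := (lam.rowLen r : ℤ) + n * α r

/-- Chains of shapes (Gelfand-Tsetlin patterns) of shape `A` with `N` letters: `c k r` is the number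
of entries smaller than `k` in row `r`. -/
structure IsGT (N : ℕ) (A : ℕ → ℕ) (c : ℕ → ℕ → ℕ) : Prop where
  zero : ∀ r, c 0 r = 0
  mono : ∀ k r, c k r ≤ c (k + 1) r
  inter : ∀ k r, c (k + 1) (r + 1) ≤ c k r
  top : ∀ k, N ≤ k → c k = A

/-- The number of entries `k`. -/
def wt (c : ℕ → ℕ → ℕ) (k : ℕ) : ℕ := ∑ r ∈ Finset.range (k + 1), (c (k + 1) r - c k r)

/-- The quantities of the Littlewood-Richardson rule. -/
def D (B : ℕ → ℕ) (c : ℕ → ℕ → ℕ) (ρ k : ℕ) : ℤ :=
  (B k : ℤ) - B (k + 1) + ∑ s ∈ Finset.range ρ, ((c (k + 1) s : ℤ) - c k s)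
    - ∑ s ∈ Finset.range (ρ + 1), ((c (k + 2) s : ℤ) - c (k + 1) s)

/-- Littlewood-Richardson chains. -/
def Good (B : ℕ → ℕ) (c : ℕ → ℕ → ℕ) : Prop := ∀ ρ k, 0 ≤ D B c ρ k

end MP967
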