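import Pool.Agent.Lib.MP_967fd7_co.Basic

/-! The injection `c ↦ ins a c` from good chains for `(A, B + a)` to good chains for `(A + a, B)`.

Proof sketch. `wt_ins`: the new letters `k` are `a k` many, in row `k`. `letters_le`:
`c (k+1) s ≥ c (k+2) (s+1)` and telescoping. `ins_good`: the inserted entries contribute
`[k < ρ] a k` to the first sum and `[k + 1 ≤ ρ] a (k+1)` to the second sum, so
`D B (ins a c) ρ k` equals `D (B + a) c ρ k` if `k < ρ`, and `D (B + a) c ρ k - (a k - a (k+1))`
if `ρ ≤ k`. The latter is `D B c ρ k ≥ B k - B (k+1) - A 0` by `letters_le` (the first sum is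
nonnegative): use `hgap` if `a (k+1) < a k`. -/

namespace MP967

/-- Insert `a r` letters `r` into row `r`. -/
def ins (a : ℕ → ℕ) (c : ℕ → ℕ → ℕ) (k r : ℕ) : ℕ := c k r + if r < k then a r else 0

theorem ins_GT {N : ℕ} {A a : ℕ → ℕ} {c : ℕ → ℕ → ℕ} (h : IsGT N A c) (ha : Antitone a)
    (hN : ∀ r, N ≤ r → a r = 0) : IsGT N (fun r => A r + a r) (ins a c) := by
  refine ⟨fun r => ?_, fun k r => ?_, fun k r => ?_, fun k hk => ?_⟩
  · simp [ins, h.zero r]
  · have h1 := h.mono k r
    unfold ins
    split_ifs with h2 h3 <;> omega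
  · have h1 := h.inter k r
    have h4 := ha (Nat.le_succ r)
    unfold ins
    split_ifs with h2 h3 <;> simp only [Nat.succ_eq_add_one] at h4 <;> omega
  · funext r
    unfold ins
    rw [h.top k hk]
    split_ifs with h2
    · rfl
    · rw [hN r (by omega)]

theorem wt_ins {N : ℕ} {A a : ℕ → ℕ} {c : ℕ → ℕ → ℕ} (h : IsGT N A c) (k : ℕ) :
    wt (ins a c) k = wt c k + a k := by
  unfold wt
  rw [Finset.sum_range_succ, Finset.sum_range_succ, add_assoc]
  congr 1
  · apply Finset.sum_congr rfl
    intro r hr
    rw [Finset.mem_range] at hr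
    unfold ins
    rw [if_pos (by omega), if_pos hr]
    omega
  · have h1 := h.mono k k
    unfold ins
    rw [if_pos (by omega), if_neg (by omega)]
    omega

/-- The letters `k + 1` in the rows `≤ ρ` lie in different columns. -/
theorem letters_le {N : ℕ} {A : ℕ → ℕ} {c : ℕ → ℕ → ℕ} (h : IsGT N A c) (ρ k : ℕ) :
    ∑ s ∈ Finset.range (ρ + 1), ((c (k + 2) s : ℤ) - c (k + 1) s) ≤ A 0 := by
  have key : ∑ s ∈ Finset.range (ρ + 1), ((c (k + 2) s : ℤ) - c (k + 1) s)
      ≤ (A 0 : ℤ) - c (k + 1) ρ := by
    induction ρ with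
    | zero =>
      have h1 := h.le_top (k + 2) 0
      simp only [zero_add, Finset.sum_range_one]
      omega
    | succ ρ ih =>
      rw [Finset.sum_range_succ]
      have h1 := h.inter (k + 1) ρ
      have h2 : c (k + 2) (ρ + 1) ≤ c (k + 1) ρ := h1
      omega
  omega

theorem ins_good {N : ℕ} {A B a : ℕ → ℕ} {c : ℕ → ℕ → ℕ} (h : IsGT N A c) (ha : Antitone a)
    (hg : Good (fun r => B r + a r) c)
    (hgap : ∀ k, a (k + 1) < a k → A 0 + B (k + 1) ≤ B k) : Good B (ins a c) := by
  intro ρ k
  have h1 : ∑ s ∈ Finset.range ρ, ((ins a c (k + 1) s : ℤ) - ins a c k s)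
      = ∑ s ∈ Finset.range ρ, ((c (k + 1) s : ℤ) - c k s) + (if k < ρ then (a k : ℤ) else 0) := by
    have h2 : ∀ s ∈ Finset.range ρ, ((ins a c (k + 1) s : ℤ) - ins a c k s)
        = ((c (k + 1) s : ℤ) - c k s) + (if k = s then (a k : ℤ) else 0) := by
      intro s _
      unfold ins
      rcases lt_trichotomy s k with hs | hs | hs
      · rw [if_pos (by omega), if_pos hs, if_neg (by omega)]
        push_cast
        ring
      · subst hs
        rw [if_pos (by omega), if_neg (by omega), if_pos rfl]
        push_cast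
        ring
      · rw [if_neg (by omega), if_neg (by omega), if_neg (by omega)]
        push_cast
        ring
    rw [Finset.sum_congr rfl h2, Finset.sum_add_distrib, Finset.sum_ite_eq]
    simp only [Finset.mem_range]
  have h3 : ∑ s ∈ Finset.range (ρ + 1), ((ins a c (k + 2) s : ℤ) - ins a c (k + 1) s)
      = ∑ s ∈ Finset.range (ρ + 1), ((c (k + 2) s : ℤ) - c (k + 1) s)
        + (if k < ρ then (a (k + 1) : ℤ) else 0) := by
    have h2 : ∀ s ∈ Finset.range (ρ + 1), ((ins a c (k + 2) s : ℤ) - ins a c (k + 1) s)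
        = ((c (k + 2) s : ℤ) - c (k + 1) s) + (if k + 1 = s then (a (k + 1) : ℤ) else 0) := by
      intro s _
      unfold ins
      rcases lt_trichotomy s (k + 1) with hs | hs | hs
      · rw [if_pos (by omega), if_pos hs, if_neg (by omega)]
        push_cast
        ring
      · subst hs
        rw [if_pos (by omega), if_neg (by omega), if_pos rfl]
        push_cast
        ring
      · rw [if_neg (by omega), if_neg (by omega), if_neg (by omega)]
        push_cast
        ring
    rw [Finset.sum_congr rfl h2, Finset.sum_add_distrib, Finset.sum_ite_eq]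
    simp only [Finset.mem_range, Nat.add_lt_add_iff_right]
  have h4 := hg ρ k
  have h5 := ha (Nat.le_succ k)
  simp only [Nat.succ_eq_add_one] at h5
  unfold D at h4 ⊢
  rw [h1, h3]
  push_cast at h4
  by_cases hk : k < ρ
  · rw [if_pos hk, if_pos hk]
    linarith
  · rw [if_neg hk, if_neg hk]
    rcases h5.lt_or_eq with h6 | h6
    · have h7 := hgap k h6
      have h8 := letters_le h ρ k
      have h9 : 0 ≤ ∑ s ∈ Finset.range ρ, ((c (k + 1) s : ℤ) - c k s) := by
        apply Finset.sum_nonneg
        intro s _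
        have h10 := h.mono k s
        omega
      have h11 : (A 0 : ℤ) + B (k + 1) ≤ B k := by exact_mod_cast h7
      linarith
    · rw [h6] at h4
      linarith

theorem ins_injective (a : ℕ → ℕ) : Function.Injective (ins a) := by
  intro c c' hcc
  funext k r
  have h1 := congrFun (congrFun hcc k) r
  unfold ins at h1
  omega

end MP967
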