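import Pool.Agent.Lib.MP_967fd7_co.SeriesMul
import Pool.Agent.Lib.MP_967fd7_co.Inj

/-! The difference of the two products.

Proof sketch: `schurF_mul` (with `L = M = N`) for both products; the second sum is, by `wt_ins`, the
sum over the image of the good chains for `(A, B + a)` under the injective map `ins a`, a subset of
the good chains for `(A + a, B)` by `ins_GT`, `ins_good`. Take for `X` the complement. -/

namespace MP967

/-- The difference is a sum of Schur functions. -/
theorem diff_eq_sum {A B a : ℕ → ℕ} {N : ℕ} (hA : Antitone A) (hB : Antitone B) (ha : Antitone a)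
    (hA0 : ∀ r, N ≤ r → A r = 0) (hB0 : ∀ r, N ≤ r → B r = 0) (ha0 : ∀ r, N ≤ r → a r = 0)
    (hgap : ∀ k, a (k + 1) < a k → A 0 + B (k + 1) ≤ B k) :
    ∃ X : Finset (ℕ → ℕ → ℕ), (∀ c ∈ X, Good B c) ∧
      (∀ c ∈ X, IsGT (N + N) (fun r => A r + a r) c) ∧
      schurF (fun r => A r + a r) * schurF B - schurF A * schurF (fun r => B r + a r) =
        ∑ c ∈ X, schurF (fun i => B i + wt c i) := by
  classical
  have e1 := schurF_mul (L := N) (M := N) (A := fun r => A r + a r) (B := B)
    (fun r hr => by simp only [hA0 r hr, ha0 r hr]) hB hB0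
  have hBa : Antitone (fun r => B r + a r) := fun x y hxy => Nat.add_le_add (hB hxy) (ha hxy)
  have e2 := schurF_mul (L := N) (M := N) (A := A) (B := fun r => B r + a r) hA0 hBa
    (fun r hr => by simp only [hB0 r hr, ha0 r hr])
  have hsub : ((gt (N + N) A).filter (fun c => Good (fun r => B r + a r) c)).image (ins a) ⊆
      (gt (N + N) (fun r => A r + a r)).filter (fun c => Good B c) := by
    intro c' hc'
    rw [Finset.mem_image] at hc'
    obtain ⟨c, hc, rfl⟩ := hc'
    rw [Finset.mem_filter, mem_gt] at hc
    rw [Finset.mem_filter, mem_gt]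
    exact ⟨ins_GT hc.1 ha (fun r hr => ha0 r (by omega)), ins_good hc.1 ha hc.2 hgap⟩
  refine ⟨(gt (N + N) (fun r => A r + a r)).filter (fun c => Good B c) \
    ((gt (N + N) A).filter (fun c => Good (fun r => B r + a r) c)).image (ins a), ?_, ?_, ?_⟩
  · intro c hc
    exact (Finset.mem_filter.1 (Finset.mem_sdiff.1 hc).1).2
  · intro c hc
    exact mem_gt.1 (Finset.mem_filter.1 (Finset.mem_sdiff.1 hc).1).1
  · have e3 : schurF A * schurF (fun r => B r + a r) =
        ∑ c ∈ ((gt (N + N) A).filter (fun c => Good (fun r => B r + a r) c)).image (ins a),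
          schurF (fun i => B i + wt c i) := by
      rw [Finset.sum_image (fun x _ y _ h => ins_injective a h), e2]
      apply Finset.sum_congr rfl
      intro c hc
      rw [Finset.mem_filter, mem_gt] at hc
      congr 1
      funext i
      rw [wt_ins hc.1 i]
      omega
    rw [e3, sub_eq_iff_eq_add, Finset.sum_sdiff hsub]
    exact e1

end MP967
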