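import Pool.Agent.Lib.MP_967fd7_co.Bridge
import Pool.Agent.Lib.MP_967fd7_co.Diff
import Pool.Agent.Lib.MP_967fd7_co.Cond

/-! Assembly.

Proof sketch: `mul_positive`: `schurF_mul`, `schurPositive_sum`, `add_wt_anti`, `add_wt_zero`.
`diff_positive`: the same with `diff_eq_sum`. `main_thm`: if `λ + (n+i+1) α` is not a partition then
the last term vanishes (`schurZ_zero`) and each of the two other factors is `0` or `schurF` of a
partition, use `mul_positive`. Otherwise `α` is antitone with finite support, so `0 ≤ α`; apply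
`diff_positive` with `A = λ + (n-1) α`, `B = λ + (n+i) α`, `a = α` (as functions to `ℕ`, with
`Int.toNat`) and `schurZ_eq`. -/

namespace MP967

/-- Products of Schur functions are Schur positive. -/
theorem mul_positive {A B : ℕ → ℕ} {N : ℕ} (hB : Antitone B)
    (hA0 : ∀ r, N ≤ r → A r = 0) (hB0 : ∀ r, N ≤ r → B r = 0) :
    SchurPositive (schurF A * schurF B) := by
  classical
  rw [schurF_mul hA0 hB hB0]
  refine schurPositive_sum _ (fun c i => B i + wt c i) ?_ ?_
  · intro c hc
    rw [Finset.mem_filter, mem_gt] at hc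
    exact add_wt_anti hc.1 hc.2
  · intro c hc
    rw [Finset.mem_filter, mem_gt] at hc
    exact ⟨N + N, add_wt_zero hc.1 (fun r hr => hB0 r (by omega))⟩

/-- The general inequality. -/
theorem diff_positive {A B a : ℕ → ℕ} {N : ℕ} (hA : Antitone A) (hB : Antitone B)
    (ha : Antitone a) (hA0 : ∀ r, N ≤ r → A r = 0) (hB0 : ∀ r, N ≤ r → B r = 0)
    (ha0 : ∀ r, N ≤ r → a r = 0) (hgap : ∀ k, a (k + 1) < a k → A 0 + B (k + 1) ≤ B k) :
    SchurPositive (schurF (fun r => A r + a r) * schurF B
      - schurF A * schurF (fun r => B r + a r)) := by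
  obtain ⟨X, hX1, hX2, hX3⟩ := diff_eq_sum hA hB ha hA0 hB0 ha0 hgap
  rw [hX3]
  refine schurPositive_sum X (fun c i => B i + wt c i) ?_ ?_
  · intro c hc
    exact add_wt_anti (hX2 c hc) (hX1 c hc)
  · intro c hc
    exact ⟨N + N, add_wt_zero (hX2 c hc) (fun r hr => hB0 r (by omega))⟩

theorem T17_zero : SchurPositive 0 := by
  have := schurPositive_sum (∅ : Finset ℕ) (fun _ _ => 0) (by simp) (by simp)
  simpa using this

theorem T17_cases (v : ℕ → ℤ) : schurZ v = 0 ∨ ∃ A : ℕ → ℕ, ∃ N, Antitone A ∧
    (∀ r, N ≤ r → A r = 0) ∧ schurZ v = schurF A := by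
  by_cases h : ∃ μ, IsShape μ v
  · obtain ⟨μ, hμ⟩ := h
    obtain ⟨N, hN⟩ := rowLen_zero μ
    have hanti : Antitone μ.rowLen := fun i j hij => μ.rowLen_anti i j hij
    exact Or.inr ⟨μ.rowLen, N, hanti, hN, schurZ_eq hanti hN hμ⟩
  · exact Or.inl (schurZ_zero h)

theorem main_thm (lam : YoungDiagram) (α : ℕ →₀ ℤ) (n i : ℕ) (hn : 1 ≤ n)
    (h : Cond lam α n i) :
    SchurPositive (schurZ (prog lam α n) * schurZ (prog lam α (n + i))
      - schurZ (prog lam α (n - 1)) * schurZ (prog lam α (n + i + 1))) := by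
  rcases h with h | ⟨hα, hgap⟩
  · rw [schurZ_zero h, mul_zero, sub_zero]
    rcases T17_cases (prog lam α n) with h1 | ⟨A, N, hA, hA0, h1⟩
    · rw [h1, zero_mul]
      exact T17_zero
    · rcases T17_cases (prog lam α (n + i)) with h2 | ⟨B, M, hB, hB0, h2⟩
      · rw [h2, mul_zero]
        exact T17_zero
      · rw [h1, h2]
        exact mul_positive (N := N + M) hB (fun r hr => hA0 r (by omega))
          (fun r hr => hB0 r (by omega))
  · have hsupp : ∀ r, α.support.sup id + 1 ≤ r → α r = 0 := by
      intro r hr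
      by_contra hne
      have : id r ≤ α.support.sup id := Finset.le_sup (Finsupp.mem_support_iff.2 hne)
      simp only [id] at this
      have h' : α.support.sup id = α.support.sup (fun x => x) := rfl
      omega
    have hpos : ∀ r, 0 ≤ α r := by
      intro r
      have h1 := hα (le_max_left r (α.support.sup id + 1))
      rw [hsupp _ (le_max_right r (α.support.sup id + 1))] at h1
      exact h1
    obtain ⟨N1, hN1⟩ := rowLen_zero lam
    set N := N1 + (α.support.sup id + 1) with hN
    let a : ℕ → ℕ := fun r => (α r).toNat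
    have ha1 : ∀ r, (a r : ℤ) = α r := fun r => Int.toNat_of_nonneg (hpos r)
    have ha : Antitone a := fun r s hrs => Int.toNat_le_toNat (hα hrs)
    have ha0 : ∀ r, N ≤ r → a r = 0 := by
      intro r hr
      have h1 : (a r : ℤ) = 0 := by rw [ha1 r, hsupp r (by omega)]
      exact_mod_cast h1
    have hl : Antitone lam.rowLen := fun i j hij => lam.rowLen_anti i j hij
    let F : ℕ → ℕ → ℕ := fun j r => lam.rowLen r + j * a r
    have hF : ∀ j, Antitone (F j) := fun j r s hrs =>
      Nat.add_le_add (hl hrs) (Nat.mul_le_mul_left j (ha hrs))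
    have hF0 : ∀ j r, N ≤ r → F j r = 0 := by
      intro j r hr
      simp only [F]
      rw [hN1 r (by omega), ha0 r hr, mul_zero, add_zero]
    have hFp : ∀ j r, (F j r : ℤ) = prog lam α j r := by
      intro j r
      simp only [F, prog]
      push_cast
      rw [ha1 r]
    have hFs : ∀ j, (fun r => F j r + a r) = F (j + 1) := by
      intro j
      funext r
      simp only [F]
      ring
    have e1 : schurZ (prog lam α n) = schurF (fun r => F (n - 1) r + a r) := by
      rw [hFs, Nat.sub_add_cancel hn]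
      exact schurZ_eq (hF n) (hF0 n) (hFp n)
    have e2 : schurZ (prog lam α (n + i)) = schurF (F (n + i)) :=
      schurZ_eq (hF _) (hF0 _) (hFp _)
    have e3 : schurZ (prog lam α (n - 1)) = schurF (F (n - 1)) :=
      schurZ_eq (hF _) (hF0 _) (hFp _)
    have e4 : schurZ (prog lam α (n + i + 1)) = schurF (fun r => F (n + i) r + a r) := by
      rw [hFs]
      exact schurZ_eq (hF _) (hF0 _) (hFp _)
    rw [e1, e2, e3, e4]
    refine diff_positive (hF _) (hF _) ha (hF0 _) (hF0 _) ha0 ?_
    intro k hk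
    have h1 : α (k + 1) < α k := by
      rw [← ha1, ← ha1]
      exact_mod_cast hk
    have h2 := hgap k h1
    rw [← hFp, ← hFp, ← hFp] at h2
    have h3 : ((F (n - 1) 0 : ℕ) : ℤ) + (F (n + i) (k + 1) : ℕ) ≤ (F (n + i) k : ℕ) := by linarith
    exact_mod_cast h3

end MP967
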