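import Pool.Agent.Lib.MP_967fd7_co.Tog

/-! The sign reversing involution on chains that are not good.

Proof sketch. `exists_sel`: least row with a violation (`Nat.find`), greatest violating letter
`k < N` in this row. `Sel.room`, with `e = - D B c ρ k > 0`: for `ρ = 0` it is `B (k+1) ≤ B k`; for
`ρ = σ + 1`, `D ρ k = D σ k + (c (k+1) σ - c k σ) - (c (k+2) ρ - c (k+1) ρ)` and `D σ k ≥ 0`, so
`c (k+1) ρ + e ≤ c (k+2) ρ` (use `c k σ ≤ c (k+1) σ`) and `c (k+1) ρ + e ≤ c k σ` (use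
`c (k+2) ρ ≤ c (k+1) σ`). `flip_GT`: `IsGT.update`. `flip_D`: only the term `s = ρ` of the second
sum changes, by `c' (k+1) ρ - c (k+1) ρ` with `c' (k+1) ρ = lo c k ρ + e - 1`. `flip_sel`: `D` in the
rows `< ρ`, and in row `ρ` for letters `> k`, does not involve the changed entries. `flip_flip`: by
`flip_D`, `lo_update`, `up_update`. -/

namespace MP967

/-- `(ρ, k)` is the first violation: `ρ` is the least row with a violation, and `k` is the greatest
letter with a violation in this row. -/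
structure Sel (N : ℕ) (B : ℕ → ℕ) (c : ℕ → ℕ → ℕ) (ρ k : ℕ) : Prop where
  lt : k + 1 < N
  neg : D B c ρ k < 0
  minrow : ∀ ρ' < ρ, ∀ j, j + 1 < N → 0 ≤ D B c ρ' j
  maxlet : ∀ j, k < j → j + 1 < N → 0 ≤ D B c ρ j

theorem T5_D_congr {B : ℕ → ℕ} {c c' : ℕ → ℕ → ℕ} {ρ k : ℕ} (h0 : ∀ s < ρ, c' k s = c k s)
    (h1 : ∀ s ≤ ρ, c' (k + 1) s = c (k + 1) s) (h2 : ∀ s ≤ ρ, c' (k + 2) s = c (k + 2) s) :
    D B c' ρ k = D B c ρ k := by
  unfold D
  have e1 : ∑ s ∈ Finset.range ρ, ((c' (k + 1) s : ℤ) - c' k s) =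
      ∑ s ∈ Finset.range ρ, ((c (k + 1) s : ℤ) - c k s) := by
    apply Finset.sum_congr rfl
    intro s hs
    rw [Finset.mem_range] at hs
    rw [h0 s hs, h1 s hs.le]
  have e2 : ∑ s ∈ Finset.range (ρ + 1), ((c' (k + 2) s : ℤ) - c' (k + 1) s) =
      ∑ s ∈ Finset.range (ρ + 1), ((c (k + 2) s : ℤ) - c (k + 1) s) := by
    apply Finset.sum_congr rfl
    intro s hs
    rw [Finset.mem_range] at hs
    rw [h1 s (by omega), h2 s (by omega)]
  rw [e1, e2]

theorem T5_D_succ (B : ℕ → ℕ) (c : ℕ → ℕ → ℕ) (σ k : ℕ) :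
    D B c (σ + 1) k = D B c σ k + ((c (k + 1) σ : ℤ) - c k σ)
      - ((c (k + 2) (σ + 1) : ℤ) - c (k + 1) (σ + 1)) := by
  unfold D
  rw [Finset.sum_range_succ (fun s => ((c (k + 1) s : ℤ) - c k s)) σ,
    Finset.sum_range_succ (fun s => ((c (k + 2) s : ℤ) - c (k + 1) s)) (σ + 1)]
  ring

theorem T5_D_zero (B : ℕ → ℕ) (c : ℕ → ℕ → ℕ) (k : ℕ) :
    D B c 0 k = (B k : ℤ) - B (k + 1) - ((c (k + 2) 0 : ℤ) - c (k + 1) 0) := by
  unfold D
  simp

theorem exists_sel {N : ℕ} {B : ℕ → ℕ} {c : ℕ → ℕ → ℕ}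
    (h : ¬ ∀ ρ k, k + 1 < N → 0 ≤ D B c ρ k) : ∃ ρ k, Sel N B c ρ k := by
  classical
  push Not at h
  obtain ⟨ρ0, k0, hk0, hD0⟩ := h
  have hex : ∃ ρ, ∃ k, k + 1 < N ∧ D B c ρ k < 0 := ⟨ρ0, k0, hk0, hD0⟩
  obtain ⟨k1, hk1, hD1⟩ := Nat.find_spec hex
  have hg := Nat.findGreatest_spec (P := fun k => k + 1 < N ∧ D B c (Nat.find hex) k < 0)
    (m := k1) (n := N) (by omega) ⟨hk1, hD1⟩
  refine ⟨Nat.find hex, Nat.findGreatest (fun k => k + 1 < N ∧ D B c (Nat.find hex) k < 0) N,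
    hg.1, hg.2, ?_, ?_⟩
  · intro ρ' hρ' j hj
    by_contra hneg
    rw [not_le] at hneg
    exact Nat.find_min hex hρ' ⟨j, hj, hneg⟩
  · intro j hj hjN
    by_contra hneg
    rw [not_le] at hneg
    exact Nat.findGreatest_is_greatest hj (by omega) ⟨hjN, hneg⟩

theorem Sel.unique {N : ℕ} {B : ℕ → ℕ} {c : ℕ → ℕ → ℕ} {ρ k ρ' k' : ℕ} (h : Sel N B c ρ k)
    (h' : Sel N B c ρ' k') : ρ = ρ' ∧ k = k' := by
  have h1 : ρ = ρ' := by
    rcases lt_trichotomy ρ ρ' with hlt | heq | hgt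
    · exact absurd h.neg (not_lt.2 (h'.minrow ρ hlt k h.lt))
    · exact heq
    · exact absurd h'.neg (not_lt.2 (h.minrow ρ' hgt k' h'.lt))
  subst h1
  refine ⟨rfl, ?_⟩
  rcases lt_trichotomy k k' with hlt | heq | hgt
  · exact absurd h'.neg (not_lt.2 (h.maxlet k' hlt h'.lt))
  · exact heq
  · exact absurd h.neg (not_lt.2 (h'.maxlet k hgt h.lt))

/-- The new chain: level `k + 1` is changed in the rows `≥ ρ`. -/
def flip (B : ℕ → ℕ) (c : ℕ → ℕ → ℕ) (ρ k : ℕ) : ℕ → ℕ → ℕ :=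
  Function.update c (k + 1) (fun s => if s < ρ then c (k + 1) s
    else if s = ρ then lo c k ρ + (-(D B c ρ k)).toNat - 1 else up c k s + lo c k s - c (k + 1) s)

/-- The size of the violation is at most the room above `c (k+1) ρ`. -/
theorem Sel.room {N : ℕ} {A B : ℕ → ℕ} {c : ℕ → ℕ → ℕ} {ρ k : ℕ} (h : IsGT N A c)
    (hB : Antitone B) (hs : Sel N B c ρ k) : (c (k + 1) ρ : ℤ) - D B c ρ k ≤ up c k ρ := by
  rcases ρ with _ | σ
  · rw [T5_D_zero]
    have h1 : B (k + 1) ≤ B k := hB (Nat.le_succ k)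
    simp only [up, if_true]
    omega
  · rw [T5_D_succ]
    have h1 := hs.minrow σ (Nat.lt_succ_self σ) k hs.lt
    have h2 : c k σ ≤ c (k + 1) σ := h.mono k σ
    have h3 : c (k + 2) (σ + 1) ≤ c (k + 1) σ := h.inter (k + 1) σ
    have h4 : up c k (σ + 1) = min (c (k + 2) (σ + 1)) (c k σ) := by
      simp [up]
    rw [h4, Nat.cast_min, le_min_iff]
    constructor <;> omega

theorem flip_GT {N : ℕ} {A B : ℕ → ℕ} {c : ℕ → ℕ → ℕ} {ρ k : ℕ} (h : IsGT N A c)
    (hB : Antitone B) (hs : Sel N B c ρ k) : IsGT N A (flip B c ρ k) := by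
  have hroom := hs.room h hB
  have hneg := hs.neg
  unfold flip
  apply h.update hs.lt
  · intro s
    have h1 := h.lo_le k s
    have h2 := h.le_up k s
    split_ifs with h3 h4
    · exact h1
    · subst h4
      omega
    · omega
  · intro s
    have h1 := h.lo_le k s
    have h2 := h.le_up k s
    split_ifs with h3 h4
    · exact h2
    · subst h4
      omega
    · omega

theorem T5_flip_ne {B : ℕ → ℕ} {c : ℕ → ℕ → ℕ} {ρ k j s : ℕ} (hj : j ≠ k + 1) :
    flip B c ρ k j s = c j s := by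
  unfold flip
  rw [Function.update_of_ne hj]

theorem T5_flip_lt {B : ℕ → ℕ} {c : ℕ → ℕ → ℕ} {ρ k j s : ℕ} (hs : s < ρ) :
    flip B c ρ k j s = c j s := by
  by_cases hj : j = k + 1
  · subst hj
    unfold flip
    rw [Function.update_self]
    simp [hs]
  · exact T5_flip_ne hj

theorem T5_flip_self {B : ℕ → ℕ} {c : ℕ → ℕ → ℕ} {ρ k : ℕ} :
    flip B c ρ k (k + 1) ρ = lo c k ρ + (-(D B c ρ k)).toNat - 1 := by
  unfold flip
  rw [Function.update_self]
  simp

theorem flip_D {N : ℕ} {A B : ℕ → ℕ} {c : ℕ → ℕ → ℕ} {ρ k : ℕ} (h : IsGT N A c)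
    (hB : Antitone B) (hs : Sel N B c ρ k) :
    D B (flip B c ρ k) ρ k = lo c k ρ - c (k + 1) ρ - 1 := by
  have hneg := hs.neg
  have h1 : D B (flip B c ρ k) ρ k = D B c ρ k + ((flip B c ρ k (k + 1) ρ : ℤ) - c (k + 1) ρ) := by
    unfold D
    rw [Finset.sum_range_succ (fun s => ((flip B c ρ k (k + 2) s : ℤ) - flip B c ρ k (k + 1) s)) ρ,
      Finset.sum_range_succ (fun s => ((c (k + 2) s : ℤ) - c (k + 1) s)) ρ]
    have e1 : ∑ s ∈ Finset.range ρ, ((flip B c ρ k (k + 1) s : ℤ) - flip B c ρ k k s) =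
        ∑ s ∈ Finset.range ρ, ((c (k + 1) s : ℤ) - c k s) := by
      apply Finset.sum_congr rfl
      intro s hs
      rw [Finset.mem_range] at hs
      rw [T5_flip_lt hs, T5_flip_lt hs]
    have e2 : ∑ s ∈ Finset.range ρ, ((flip B c ρ k (k + 2) s : ℤ) - flip B c ρ k (k + 1) s) =
        ∑ s ∈ Finset.range ρ, ((c (k + 2) s : ℤ) - c (k + 1) s) := by
      apply Finset.sum_congr rfl
      intro s hs
      rw [Finset.mem_range] at hs
      rw [T5_flip_lt hs, T5_flip_lt hs]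
    rw [e1, e2, T5_flip_ne (j := k + 2) (by omega)]
    ring
  rw [h1, T5_flip_self]
  omega

theorem flip_sel {N : ℕ} {A B : ℕ → ℕ} {c : ℕ → ℕ → ℕ} {ρ k : ℕ} (h : IsGT N A c)
    (hB : Antitone B) (hs : Sel N B c ρ k) : Sel N B (flip B c ρ k) ρ k where
  lt := hs.lt
  neg := by
    rw [flip_D h hB hs]
    have h1 := h.lo_le k ρ
    omega
  minrow := by
    intro ρ' hρ' j hj
    rw [T5_D_congr (c := c) (fun s hs' => T5_flip_lt (hs'.trans hρ'))
      (fun s hs' => T5_flip_lt (hs'.trans_lt hρ')) (fun s hs' => T5_flip_lt (hs'.trans_lt hρ'))]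
    exact hs.minrow ρ' hρ' j hj
  maxlet := by
    intro j hkj hj
    rw [T5_D_congr (c := c) (fun s hs' => T5_flip_lt hs')
      (fun s _ => T5_flip_ne (by omega)) (fun s _ => T5_flip_ne (by omega))]
    exact hs.maxlet j hkj hj

theorem flip_flip {N : ℕ} {A B : ℕ → ℕ} {c : ℕ → ℕ → ℕ} {ρ k : ℕ} (h : IsGT N A c)
    (hB : Antitone B) (hs : Sel N B c ρ k) : flip B (flip B c ρ k) ρ k = c := by
  have hD := flip_D h hB hs
  have hlo : lo (flip B c ρ k) k = lo c k := lo_update c k _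
  have hup : up (flip B c ρ k) k = up c k := up_update c k _
  funext j s
  by_cases hj : j = k + 1
  · subst hj
    have h1 := h.lo_le k s
    have h2 := h.le_up k s
    rcases lt_trichotomy s ρ with hlt | heq | hgt
    · rw [T5_flip_lt hlt, T5_flip_lt hlt]
    · subst heq
      rw [T5_flip_self, hlo, hD]
      omega
    · have e1 : ∀ c' : ℕ → ℕ → ℕ, flip B c' ρ k (k + 1) s =
          up c' k s + lo c' k s - c' (k + 1) s := by
        intro c'
        have hn1 : ¬ s < ρ := by omega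
        have hn2 : s ≠ ρ := by omega
        unfold flip
        rw [Function.update_self]
        simp [hn1, hn2]
      rw [e1, e1, hlo, hup]
      omega
  · rw [T5_flip_ne hj, T5_flip_ne hj]

end MP967
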