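import Pool.Agent.Lib.MP_967fd7_co.Zero

/-! The Littlewood-Richardson rule for Schur polynomials in `N` variables.

Proof sketch. `add_wt_anti`: `D B c ρ k = (B k + wt c k) - (B (k+1) + wt c (k+1))` for `ρ ≥ k + 2`
by `IsGT.wt_eq`. `S_mul`: multiply by `alt N (δ N) ≠ 0`:
`alt δ * (S A * S B) = (alt δ * S B) * S A = alt (B + δ) * S A = ∑_{good c} alt (B + δ + wt c) =
∑_{good c} alt δ * S (B + wt c)` by `alt_delta_mul_S` (twice) and `alt_mul_S_good`. -/

namespace MP967

/-- The sum `B + wt c` is a partition for a good chain. -/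
theorem add_wt_anti {N : ℕ} {A B : ℕ → ℕ} {c : ℕ → ℕ → ℕ} (h : IsGT N A c)
    (hg : Good B c) : Antitone (fun i => B i + wt c i) := by
  refine antitone_nat_of_succ_le fun k => ?_
  have h1 := hg (k + 2) k
  have h2 := h.wt_eq k (k + 2) (by omega)
  have h3 := h.wt_eq (k + 1) (k + 3) (by omega)
  unfold D at h1
  rw [← h2, show k + 2 + 1 = k + 3 from rfl, show k + 2 = k + 1 + 1 from rfl, ← h3] at h1
  omega

theorem add_wt_zero {N : ℕ} {A B : ℕ → ℕ} {c : ℕ → ℕ → ℕ} (h : IsGT N A c)
    (hN : ∀ r, N ≤ r → B r = 0) : ∀ r, N ≤ r → B r + wt c r = 0 := by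
  intro r hr
  rw [hN r hr, h.wt_zero hr]

open Classical in
theorem S_mul {N : ℕ} {A B : ℕ → ℕ} (hB : Antitone B) (hN : ∀ r, N ≤ r → B r = 0) :
    S N A * S N B =
      ∑ c ∈ (gt N A).filter (fun c => Good B c), S N (fun i => B i + wt c i) := by
  apply mul_left_cancel₀ (alt_delta_ne_zero N)
  calc alt N (δ N) * (S N A * S N B) = (alt N (δ N) * S N B) * S N A := by ring
    _ = alt N (fun i => B i + δ N i) * S N A := by rw [alt_delta_mul_S hB hN]
    _ = ∑ c ∈ (gt N A).filter (fun c => Good B c), alt N (fun i => B i + δ N i + wt c i) :=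
        alt_mul_S_good A hB
    _ = ∑ c ∈ (gt N A).filter (fun c => Good B c),
          alt N (δ N) * S N (fun i => B i + wt c i) := by
        refine Finset.sum_congr rfl fun c hc => ?_
        rw [Finset.mem_filter, mem_gt] at hc
        rw [alt_delta_mul_S (add_wt_anti hc.1 hc.2) (add_wt_zero hc.1 hN)]
        refine alt_congr fun i _ => ?_
        ring
    _ = alt N (δ N) *
          ∑ c ∈ (gt N A).filter (fun c => Good B c), S N (fun i => B i + wt c i) := by
        rw [Finset.mul_sum]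

end MP967
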