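import Pool.Agent.Lib.MP_967fd7_co.Alt

/-! From `N` variables to power series in infinitely many variables.

Proof sketch. `IsGT.of_wt`: `wt c k = 0` gives `c (k+1) r = c k r` for `r ≤ k` and both vanish for
`r > k`. `schurF_coeff`: both sides count the chains `c` in `gt N A` with `wt c i = w i` for all `i`;
the exponent `w` is `Finsupp.mapDomain Fin.val w'`, use `MvPolynomial.coeff_rename_mapDomain`. -/

namespace MP967

/-- The Schur function of a shape given by a function, counted with chains. -/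
noncomputable def schurF (A : ℕ → ℕ) : MvPowerSeries ℕ ℚ := fun w : ℕ →₀ ℕ =>
  (Nat.card {c : ℕ → ℕ → ℕ // (∃ N, IsGT N A c) ∧ ∀ k, wt c k = w k} : ℚ)

/-- If no letter `≥ N` occurs then the chain has `N` letters. -/
theorem IsGT.of_wt {N M : ℕ} {A : ℕ → ℕ} {c : ℕ → ℕ → ℕ} (h : IsGT M A c)
    (hw : ∀ k, N ≤ k → wt c k = 0) : IsGT N A c := by
  have hstep : ∀ k, N ≤ k → c (k + 1) = c k := by
    intro k hk
    funext r
    by_cases hr : r < k + 1
    · have h1 := hw k hk
      unfold wt at h1
      rw [Finset.sum_eq_zero_iff] at h1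
      have h2 := h1 r (Finset.mem_range.2 hr)
      have h3 := h.mono k r
      omega
    · rw [h.vanish (k + 1) r (by omega), h.vanish k r (by omega)]
  have hall : ∀ k, N ≤ k → ∀ j, c (k + j) = c k := by
    intro k hk j
    induction j with
    | zero => rfl
    | succ j ih =>
      rw [← add_assoc, hstep (k + j) (by omega), ih]
  refine ⟨h.zero, h.mono, h.inter, ?_⟩
  intro k hk
  rw [← hall k hk M]
  exact h.top (k + M) (by omega)

/-- The exponent of the monomial of a chain, in infinitely many variables. -/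
theorem T11_mapDomain {N : ℕ} {A : ℕ → ℕ} {c : ℕ → ℕ → ℕ} (h : IsGT N A c) (w : ℕ →₀ ℕ) :
    Finsupp.mapDomain (Fin.val : Fin N → ℕ)
      (Finsupp.equivFunOnFinite.symm (fun i : Fin N => wt c i)) = w ↔ ∀ k, wt c k = w k := by
  have h1 : ∀ k, Finsupp.mapDomain (Fin.val : Fin N → ℕ)
      (Finsupp.equivFunOnFinite.symm (fun i : Fin N => wt c i)) k = wt c k := by
    intro k
    by_cases hk : k < N
    · have h2 := Finsupp.mapDomain_apply (Fin.val_injective (n := N))
        (Finsupp.equivFunOnFinite.symm (fun i : Fin N => wt c i)) ⟨k, hk⟩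
      rw [Finsupp.equivFunOnFinite_symm_apply_apply] at h2
      exact h2
    · rw [Finsupp.mapDomain_of_notMem_range, h.wt_zero (by omega)]
      rintro ⟨i, hi⟩
      have := i.2
      omega
  constructor
  · intro h2 k
    rw [← h1 k, h2]
  · intro h2
    ext k
    rw [h1 k, h2 k]

/-- The coefficients of `schurF A` are those of the Schur polynomials in enough variables. -/
theorem schurF_coeff (N : ℕ) (A : ℕ → ℕ) (w : ℕ →₀ ℕ) (hw : ∀ k, N ≤ k → w k = 0) :
    MvPowerSeries.coeff w (schurF A) = MvPolynomial.coeff w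
      (MvPolynomial.rename (Fin.val : Fin N → ℕ)
        (MvPolynomial.map (Int.castRingHom ℚ) (S N A))) := by
  classical
  have h1 : MvPowerSeries.coeff w (schurF A) = (Nat.card {c : ℕ → ℕ → ℕ //
      (∃ N, IsGT N A c) ∧ ∀ k, wt c k = w k} : ℚ) := rfl
  have h2 : Nat.card {c : ℕ → ℕ → ℕ // (∃ N, IsGT N A c) ∧ ∀ k, wt c k = w k}
      = ((gt N A).filter (fun c => ∀ k, wt c k = w k)).card := by
    apply Nat.subtype_card
    intro c
    rw [Finset.mem_filter, mem_gt]
    constructor
    · rintro ⟨h, h'⟩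
      exact ⟨⟨N, h⟩, h'⟩
    · rintro ⟨⟨M, hM⟩, h'⟩
      exact ⟨hM.of_wt (fun k hk => by rw [h' k, hw k hk]), h'⟩
  rw [h1, h2]
  unfold S
  rw [map_sum, map_sum, MvPolynomial.coeff_sum]
  have h3 : ∀ c ∈ gt N A, MvPolynomial.coeff w (MvPolynomial.rename (Fin.val : Fin N → ℕ)
      (MvPolynomial.map (Int.castRingHom ℚ) (mon N (wt c))))
      = if (∀ k, wt c k = w k) then (1 : ℚ) else 0 := by
    intro c hc
    unfold mon
    rw [MvPolynomial.map_monomial, MvPolynomial.rename_monomial, map_one,
      MvPolynomial.coeff_monomial]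
    exact if_congr (T11_mapDomain (mem_gt.1 hc) w) rfl rfl
  rw [Finset.sum_congr rfl h3, Finset.sum_boole]

end MP967
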