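import Pool.Agent.Lib.MP_967fd7_co.Basic

/-! Good chains use few letters.

Proof sketch: by strong induction on the row `ρ`, `c (k+2) ρ = c (k+1) ρ` for all `k ≥ M + ρ`:
`B k = B (k+1) = 0`, and `c (k+1) s = c k s` for `s < ρ` by the induction hypothesis (with `k - 1`,
as `k - 1 ≥ M + s`), so `D B c ρ k ≥ 0` says that a sum of nonnegative terms is `≤ 0`. Hence
`c j ρ = A ρ` for `j ≥ M + ρ + 1`; rows `ρ ≥ L` vanish by `IsGT.le_top`. -/

namespace MP967

/-- Good chains use few letters. -/
theorem good_stable {N L M : ℕ} {A B : ℕ → ℕ} {c : ℕ → ℕ → ℕ} (h : IsGT N A c)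
    (hg : Good B c) (hA : ∀ r, L ≤ r → A r = 0) (hB : ∀ r, M ≤ r → B r = 0) :
    IsGT (L + M) A c := by
  have key : ∀ ρ k, M + ρ ≤ k → c (k + 2) ρ = c (k + 1) ρ := by
    intro ρ
    induction ρ using Nat.strong_induction_on with
    | _ ρ ih =>
      intro k hk
      have h1 := hg ρ k
      unfold D at h1
      rw [hB k (by omega), hB (k + 1) (by omega)] at h1
      have h2 : ∑ s ∈ Finset.range ρ, ((c (k + 1) s : ℤ) - c k s) = 0 := by
        apply Finset.sum_eq_zero
        intro s hs
        rw [Finset.mem_range] at hs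
        obtain ⟨k', rfl⟩ : ∃ k', k = k' + 1 := ⟨k - 1, by omega⟩
        have := ih s hs k' (by omega)
        rw [show k' + 1 + 1 = k' + 2 by omega, this]
        simp
      rw [h2, Finset.sum_range_succ] at h1
      have h3 : 0 ≤ ∑ s ∈ Finset.range ρ, ((c (k + 2) s : ℤ) - c (k + 1) s) := by
        apply Finset.sum_nonneg
        intro s _
        have := h.mono (k + 1) s
        have h4 : (c (k + 1) s : ℤ) ≤ c (k + 2) s := by exact_mod_cast this
        linarith
      have h5 := h.mono (k + 1) ρ
      have h6 : (c (k + 2) ρ : ℤ) ≤ c (k + 1) ρ := by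
        simp only [Nat.cast_zero] at h1
        linarith
      have h7 : c (k + 2) ρ ≤ c (k + 1) ρ := by exact_mod_cast h6
      exact le_antisymm h7 h5
  have key2 : ∀ ρ j, M + ρ + 1 ≤ j → ∀ t, c (j + t) ρ = c j ρ := by
    intro ρ j hj t
    induction t with
    | zero => rfl
    | succ t ih =>
      obtain ⟨k, hk⟩ : ∃ k, j + t = k + 1 := ⟨j + t - 1, by omega⟩
      have := key ρ k (by omega)
      rw [show j + (t + 1) = k + 2 by omega, this, ← hk, ih]
  refine ⟨h.zero, h.mono, h.inter, ?_⟩
  intro k hk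
  funext r
  by_cases hr : L ≤ r
  · have := h.le_top k r
    rw [hA r hr] at this ⊢
    omega
  · have h1 := key2 r k (by omega) N
    rw [h.top (k + N) (by omega)] at h1
    exact h1.symm

end MP967
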