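import Pool.Agent.Lib.MP_967fd7_co.LR
import Pool.Agent.Lib.MP_967fd7_co.Stable
import Pool.Agent.Lib.MP_967fd7_co.Series

/-! The Littlewood-Richardson rule for Schur functions.

Proof sketch: compare the coefficients of `x^w`. Choose `N ≥ L + M` above the support of `w`. In
`MvPowerSeries.coeff_mul` all pairs `(u, v)` of the antidiagonal of `w` have support below `N`, so by
`schurF_coeff` the sum is the coefficient (`MvPolynomial.coeff_mul`) of the product of the
polynomials; apply `S_mul` (for `N`, under `map` and `rename`), then `schurF_coeff` backwards. The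
sets of good chains in `gt N A` and `gt (L + M) A` agree by `good_stable` and `IsGT.weaken`. -/

namespace MP967

open Classical in
theorem T12_good_eq {N L M : ℕ} {A B : ℕ → ℕ} (hA : ∀ r, L ≤ r → A r = 0)
    (hM : ∀ r, M ≤ r → B r = 0) (hN : L + M ≤ N) :
    (gt N A).filter (fun c => Good B c) = (gt (L + M) A).filter (fun c => Good B c) := by
  ext c
  rw [Finset.mem_filter, Finset.mem_filter, mem_gt, mem_gt]
  constructor
  · rintro ⟨h1, h2⟩
    exact ⟨good_stable h1 h2 hA hM, h2⟩
  · rintro ⟨h1, h2⟩
    exact ⟨h1.weaken hN, h2⟩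

open Classical in
/-- The Littlewood-Richardson rule for Schur functions. -/
theorem schurF_mul {L M : ℕ} {A B : ℕ → ℕ} (hA : ∀ r, L ≤ r → A r = 0) (hB : Antitone B)
    (hM : ∀ r, M ≤ r → B r = 0) :
    schurF A * schurF B =
      ∑ c ∈ (gt (L + M) A).filter (fun c => Good B c), schurF (fun i => B i + wt c i) := by
  ext w
  obtain ⟨K, hK⟩ : ∃ K, ∀ k, K ≤ k → w k = 0 := by
    refine ⟨w.support.sup id + 1, fun k hk => ?_⟩
    by_contra h
    have h1 : k ∈ w.support := Finsupp.mem_support_iff.2 h
    have h2 : id k ≤ w.support.sup id := Finset.le_sup h1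
    have h3 : k ≤ w.support.sup id := h2
    omega
  set N := L + M + K with hNdef
  have hw : ∀ k, N ≤ k → w k = 0 := fun k hk => hK k (by omega)
  rw [MvPowerSeries.coeff_mul]
  have h1 : ∀ p ∈ Finset.HasAntidiagonal.antidiagonal w, MvPowerSeries.coeff p.1 (schurF A)
      * MvPowerSeries.coeff p.2 (schurF B)
      = MvPolynomial.coeff p.1 (MvPolynomial.rename (Fin.val : Fin N → ℕ)
        (MvPolynomial.map (Int.castRingHom ℚ) (S N A)))
      * MvPolynomial.coeff p.2 (MvPolynomial.rename (Fin.val : Fin N → ℕ)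
        (MvPolynomial.map (Int.castRingHom ℚ) (S N B))) := by
    intro p hp
    have h2 : p.1 + p.2 = w := Finset.HasAntidiagonal.mem_antidiagonal.1 hp
    have h3 : ∀ k, N ≤ k → p.1 k + p.2 k = 0 := by
      intro k hk
      rw [← Finsupp.add_apply, h2, hw k hk]
    rw [schurF_coeff N A p.1 (fun k hk => by have := h3 k hk; omega),
      schurF_coeff N B p.2 (fun k hk => by have := h3 k hk; omega)]
  rw [Finset.sum_congr rfl h1, ← MvPolynomial.coeff_mul, ← map_mul, ← map_mul,
    S_mul hB (fun r hr => hM r (by omega)), map_sum, map_sum, MvPolynomial.coeff_sum,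
    T12_good_eq hA hM (by omega), map_sum]
  refine Finset.sum_congr rfl fun c _ => ?_
  rw [schurF_coeff N _ w hw]

end MP967
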