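import Pool.Agent.Lib.MP_967fd7_co.Tog
import Pool.Agent.Lib.MP_967fd7_co.Alt

/-! Schur polynomials are symmetric.

Proof sketch: `rename_swap_S`: `tog · k` is an involution of `gt N A` that exchanges the weights `k`
and `k+1` (`wt_tog_left`, `wt_tog_right`, `wt_update_other`). `S_symm`: the permutations `σ` with
`rename σ (S N A) = S N A` form a submonoid; use `Equiv.Perm.mclosure_swap_castSucc_succ`. -/

namespace MP967

theorem rename_swap_S (N : ℕ) (A : ℕ → ℕ) (k : ℕ) (hk : k + 1 < N) :
    MvPolynomial.rename (Equiv.swap (⟨k, by omega⟩ : Fin N) ⟨k + 1, hk⟩) (S N A) = S N A := by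
  have key : ∀ c ∈ gt N A, MvPolynomial.rename (Equiv.swap (⟨k, by omega⟩ : Fin N) ⟨k + 1, hk⟩)
      (mon N (wt c)) = mon N (wt (tog c k)) := by
    intro c hc
    rw [mem_gt] at hc
    unfold mon
    rw [MvPolynomial.rename_monomial]
    refine congrArg (fun z => MvPolynomial.monomial z (1 : ℤ)) ?_
    ext i
    rw [Finsupp.mapDomain_equiv_apply, Equiv.symm_swap]
    simp only [Finsupp.equivFunOnFinite_symm_apply_apply]
    by_cases h1 : i = ⟨k, by omega⟩
    · subst h1
      rw [Equiv.swap_apply_left]
      exact (wt_tog_left hc hk).symm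
    · by_cases h2 : i = ⟨k + 1, hk⟩
      · subst h2
        rw [Equiv.swap_apply_right]
        exact (wt_tog_right hc hk).symm
      · rw [Equiv.swap_apply_of_ne_of_ne h1 h2]
        unfold tog
        refine (wt_update_other c k _ ?_ ?_).symm
        · intro h; exact h1 (Fin.ext h)
        · intro h; exact h2 (Fin.ext h)
  unfold S
  rw [map_sum, Finset.sum_congr rfl key]
  refine Finset.sum_nbij' (fun c => tog c k) (fun c => tog c k) ?_ ?_ ?_ ?_ ?_
  · intro c hc
    rw [mem_gt] at hc ⊢
    exact tog_GT hc hk
  · intro c hc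
    rw [mem_gt] at hc ⊢
    exact tog_GT hc hk
  · intro c hc
    rw [mem_gt] at hc
    exact tog_tog hc k
  · intro c hc
    rw [mem_gt] at hc
    exact tog_tog hc k
  · intro c _
    rfl

theorem S_symm (N : ℕ) (A : ℕ → ℕ) : (S N A).IsSymmetric := by
  cases N with
  | zero =>
    intro e
    have : e = Equiv.refl _ := Subsingleton.elim _ _
    rw [this]
    simp
  | succ n =>
    let M : Submonoid (Equiv.Perm (Fin (n + 1))) :=
      { carrier := {σ | MvPolynomial.rename σ (S (n + 1) A) = S (n + 1) A}
        mul_mem' := by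
          intro a b ha hb
          change MvPolynomial.rename _ _ = _ at ha hb
          change MvPolynomial.rename _ _ = _
          rw [Equiv.Perm.coe_mul, ← MvPolynomial.rename_rename, hb, ha]
        one_mem' := by
          change MvPolynomial.rename _ _ = _
          rw [Equiv.Perm.coe_one]
          exact MvPolynomial.rename_id_apply _ }
    have hM : M = ⊤ := by
      rw [eq_top_iff, ← Equiv.Perm.mclosure_swap_castSucc_succ n, Submonoid.closure_le]
      rintro _ ⟨i, rfl⟩
      exact rename_swap_S (n + 1) A i (by omega)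
    intro e
    have : e ∈ M := by rw [hM]; exact Submonoid.mem_top e
    exact this

/-- `a_v s_A` is the sum of the `a_{v + wt c}`. -/
theorem alt_mul_S (N : ℕ) (A v : ℕ → ℕ) :
    alt N v * S N A = ∑ c ∈ gt N A, alt N (fun i => v i + wt c i) :=
  alt_mul _ _ (S_symm N A) v

end MP967
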