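import Pool.Agent.Lib.MP_967fd7_co.Series

/-! Tableaux and chains.

Proof sketch: bijection between tableaux `T` of shape `μ` with content `w` and chains `c` of shape
`μ.rowLen` with `wt c = w`: `c k r` is the number of `j < μ.rowLen r` with `T r j < k`, i.e.
(rows are weakly increasing) `T r j < k ↔ j < c k r` for `j < μ.rowLen r`. Conversely `T r j` is the
least `k` with `j < c (k+1) r` for `j < μ.rowLen r`, and `0` otherwise. Interlacing corresponds to
strictness of columns; `T r j ≥ r`, so letter `k` occurs only in rows `≤ k`, and the number of `k`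
in row `r` is `c (k+1) r - c k r`. -/

namespace MP967

/-- The chain of a tableau. -/
def T13_chain {μ : YoungDiagram} (T : SemistandardYoungTableau μ) (k r : ℕ) : ℕ :=
  ((Finset.range (μ.rowLen r)).filter (fun j => T r j < k)).card

theorem T13_lt_iff {μ : YoungDiagram} (T : SemistandardYoungTableau μ) {k r j : ℕ}
    (hj : j < μ.rowLen r) : T r j < k ↔ j < T13_chain T k r := by
  have hrow : ∀ j1 j2, j1 ≤ j2 → j2 < μ.rowLen r → T r j1 ≤ T r j2 := fun j1 j2 h1 h2 =>
    T.row_weak_of_le h1 (YoungDiagram.mem_iff_lt_rowLen.2 h2)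
  constructor
  · intro h
    have h1 : Finset.range (j + 1) ⊆ (Finset.range (μ.rowLen r)).filter (fun j => T r j < k) := by
      intro x hx
      rw [Finset.mem_range] at hx
      rw [Finset.mem_filter, Finset.mem_range]
      exact ⟨by omega, (hrow x j (by omega) hj).trans_lt h⟩
    have h2 := Finset.card_le_card h1
    rw [Finset.card_range] at h2
    exact h2
  · intro h
    by_contra hT
    rw [not_lt] at hT
    have h1 : (Finset.range (μ.rowLen r)).filter (fun j => T r j < k) ⊆ Finset.range j := by
      intro x hx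
      rw [Finset.mem_filter, Finset.mem_range] at hx
      rw [Finset.mem_range]
      by_contra hxj
      rw [not_lt] at hxj
      have := hrow j x hxj hx.1
      omega
    have h2 := Finset.card_le_card h1
    rw [Finset.card_range] at h2
    exact absurd h (not_lt.2 h2)

theorem T13_chain_le {μ : YoungDiagram} (T : SemistandardYoungTableau μ) (k r : ℕ) :
    T13_chain T k r ≤ μ.rowLen r := by
  have h := Finset.card_filter_le (Finset.range (μ.rowLen r)) (fun j => T r j < k)
  rwa [Finset.card_range] at h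

theorem T13_row_le {μ : YoungDiagram} (T : SemistandardYoungTableau μ) :
    ∀ r j, (r, j) ∈ μ → r ≤ T r j := by
  intro r
  induction r with
  | zero => intro j _; exact Nat.zero_le _
  | succ r ih =>
    intro j hj
    have h1 := T.col_strict (Nat.lt_succ_self r) hj
    have h2 := ih j (μ.up_left_mem (Nat.le_succ r) le_rfl hj)
    exact Nat.succ_le_of_lt (h2.trans_lt h1)

theorem T13_chain_GT {μ : YoungDiagram} (T : SemistandardYoungTableau μ) :
    IsGT (μ.cells.sup (fun x => T x.1 x.2) + 1) μ.rowLen (T13_chain T) where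
  zero := by
    intro r
    simp [T13_chain]
  mono := by
    intro k r
    apply Finset.card_le_card
    intro x hx
    rw [Finset.mem_filter] at hx ⊢
    exact ⟨hx.1, hx.2.trans (Nat.lt_succ_self k)⟩
  inter := by
    intro k r
    apply Finset.card_le_card
    intro x hx
    rw [Finset.mem_filter, Finset.mem_range, ← YoungDiagram.mem_iff_lt_rowLen] at hx ⊢
    refine ⟨μ.up_left_mem (Nat.le_succ r) le_rfl hx.1, ?_⟩
    have h1 : T r x < T (r + 1) x := T.col_strict (Nat.lt_succ_self r) hx.1
    omega
  top := by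
    intro k hk
    funext r
    unfold T13_chain
    rw [Finset.filter_true_of_mem, Finset.card_range]
    intro j hj
    rw [Finset.mem_range, ← YoungDiagram.mem_iff_lt_rowLen, ← YoungDiagram.mem_cells] at hj
    have h1 : T r j ≤ μ.cells.sup (fun x => T x.1 x.2) :=
      Finset.le_sup (f := fun x : ℕ × ℕ => T x.1 x.2) hj
    omega

theorem T13_content {μ : YoungDiagram} (T : SemistandardYoungTableau μ) (k : ℕ) :
    (μ.cells.filter (fun x => T x.1 x.2 = k)).card = wt (T13_chain T) k := by
  unfold wt
  rw [Finset.card_eq_sum_card_fiberwise (f := Prod.fst) (t := Finset.range (k + 1))]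
  · apply Finset.sum_congr rfl
    intro r _
    have h1 : (μ.cells.filter (fun x => T x.1 x.2 = k)).filter (fun x => x.1 = r) =
        (Finset.Ico (T13_chain T k r) (T13_chain T (k + 1) r)).map
          ⟨fun j => (r, j), fun a b h => (Prod.mk.inj h).2⟩ := by
      ext x
      rw [Finset.mem_filter, Finset.mem_filter, YoungDiagram.mem_cells, Finset.mem_map]
      constructor
      · rintro ⟨⟨h1, h2⟩, h3⟩
        have hx : x = (r, x.2) := by rw [← h3]
        have hj : x.2 < μ.rowLen r := by
          rw [← YoungDiagram.mem_iff_lt_rowLen, ← hx]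
          exact h1
        rw [h3] at h2
        refine ⟨x.2, Finset.mem_Ico.2 ⟨?_, ?_⟩, hx.symm⟩
        · rw [← not_lt, ← T13_lt_iff T hj]
          omega
        · rw [← T13_lt_iff T hj]
          omega
      · rintro ⟨j', h1, h3⟩
        have h4 : x = (r, j') := h3.symm
        subst h4
        rw [Finset.mem_Ico] at h1
        obtain ⟨h1, h2⟩ := h1
        have hj : j' < μ.rowLen r := h2.trans_le (T13_chain_le T _ _)
        rw [← T13_lt_iff T hj] at h2
        rw [← not_lt, ← T13_lt_iff T hj] at h1
        have h5 : T r j' = k := by omega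
        exact ⟨⟨YoungDiagram.mem_iff_lt_rowLen.2 hj, h5⟩, rfl⟩
    rw [h1, Finset.card_map, Nat.card_Ico]
  · intro x hx
    have hx' := Finset.mem_filter.1 (Finset.mem_coe.1 hx)
    have h1 := T13_row_le T x.1 x.2 ((YoungDiagram.mem_cells x).1 hx'.1)
    have h2 : T x.1 x.2 = k := hx'.2
    rw [Finset.mem_coe, Finset.mem_range]
    omega

/-- The entries of the tableau of a chain. -/
theorem T13_exists {μ : YoungDiagram} {N : ℕ} {c : ℕ → ℕ → ℕ} (h : IsGT N μ.rowLen c) {i j : ℕ}
    (hj : j < μ.rowLen i) : ∃ k, j < c (k + 1) i :=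
  ⟨N, by rw [h.top (N + 1) (Nat.le_succ N)]; exact hj⟩

open Classical in
noncomputable def T13_entry (μ : YoungDiagram) (c : ℕ → ℕ → ℕ) (i j : ℕ) : ℕ :=
  if h : j < μ.rowLen i ∧ ∃ k, j < c (k + 1) i then Nat.find h.2 else 0

theorem T13_entry_lt_iff {μ : YoungDiagram} {N : ℕ} {c : ℕ → ℕ → ℕ} (h : IsGT N μ.rowLen c)
    {i j k : ℕ} (hj : j < μ.rowLen i) : T13_entry μ c i j < k ↔ j < c k i := by
  classical
  have hex := T13_exists h hj
  have he : T13_entry μ c i j = Nat.find hex := by
    unfold T13_entry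
    rw [dif_pos ⟨hj, hex⟩]
  rw [he]
  constructor
  · intro h1
    have h2 := Nat.find_spec hex
    have h3 : c (Nat.find hex + 1) i ≤ c k i := h.mono_le i (Nat.succ_le_of_lt h1)
    exact h2.trans_le h3
  · intro h1
    rcases Nat.eq_zero_or_pos k with rfl | hk
    · rw [h.zero] at h1
      exact absurd h1 (Nat.not_lt_zero _)
    · obtain ⟨k, rfl⟩ : ∃ k', k = k' + 1 := ⟨k - 1, by omega⟩
      exact Nat.lt_succ_of_le (Nat.find_min' hex h1)

/-- The tableau of a chain. -/
noncomputable def T13_tab {μ : YoungDiagram} {N : ℕ} {c : ℕ → ℕ → ℕ} (h : IsGT N μ.rowLen c) :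
    SemistandardYoungTableau μ where
  entry := T13_entry μ c
  row_weak' := by
    intro i j1 j2 hj hc
    have h2 := YoungDiagram.mem_iff_lt_rowLen.1 hc
    have h1 : j1 < μ.rowLen i := hj.trans h2
    rw [← Nat.lt_succ_iff, T13_entry_lt_iff h h1]
    refine hj.trans ?_
    rw [← T13_entry_lt_iff h h2]
    exact Nat.lt_succ_self _
  col_strict' := by
    intro i1 i2 j hi hc
    have h2 := YoungDiagram.mem_iff_lt_rowLen.1 hc
    have h1 : j < μ.rowLen i1 := h2.trans_le (μ.rowLen_anti i1 i2 hi.le)
    rw [T13_entry_lt_iff h h1]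
    have h3 : j < c (T13_entry μ c i2 j + 1) i2 := by
      rw [← T13_entry_lt_iff h h2]
      exact Nat.lt_succ_self _
    have h4 : c (T13_entry μ c i2 j + 1) i2 ≤ c (T13_entry μ c i2 j + 1) (i1 + 1) :=
      h.anti _ (Nat.succ_le_of_lt hi)
    exact h3.trans_le (h4.trans (h.inter _ _))
  zeros' := by
    intro i j hc
    rw [YoungDiagram.mem_iff_lt_rowLen] at hc
    unfold T13_entry
    rw [dif_neg (fun hh => hc hh.1)]

theorem T13_chain_tab {μ : YoungDiagram} {N : ℕ} {c : ℕ → ℕ → ℕ} (h : IsGT N μ.rowLen c) :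
    T13_chain (T13_tab h) = c := by
  funext k r
  have h1 : (Finset.range (μ.rowLen r)).filter (fun j => (T13_tab h) r j < k) =
      Finset.range (c k r) := by
    ext j
    rw [Finset.mem_filter, Finset.mem_range, Finset.mem_range]
    constructor
    · rintro ⟨h1, h2⟩
      exact (T13_entry_lt_iff h h1).1 h2
    · intro h1
      have h2 : j < μ.rowLen r := h1.trans_le (h.le_top k r)
      exact ⟨h2, (T13_entry_lt_iff h h2).2 h1⟩
  unfold T13_chain
  rw [h1, Finset.card_range]

theorem T13_chain_inj {μ : YoungDiagram} {T T' : SemistandardYoungTableau μ}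
    (h : T13_chain T = T13_chain T') : T = T' := by
  apply SemistandardYoungTableau.ext
  intro i j
  by_cases hj : j < μ.rowLen i
  · have h1 : ∀ k, T i j < k ↔ T' i j < k := by
      intro k
      rw [T13_lt_iff T hj, T13_lt_iff T' hj, h]
    have h2 := (h1 (T i j + 1)).1 (Nat.lt_succ_self _)
    have h3 := (h1 (T' i j + 1)).2 (Nat.lt_succ_self _)
    omega
  · rw [← YoungDiagram.mem_iff_lt_rowLen] at hj
    rw [T.zeros hj, T'.zeros hj]

/-- Schur functions defined by semistandard Young tableaux and by chains agree. -/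
theorem schur_eq (μ : YoungDiagram) : schur μ = schurF μ.rowLen := by
  funext w
  unfold schur schurF
  congr 1
  refine Nat.card_congr (Equiv.ofBijective
    (fun T : {T : SemistandardYoungTableau μ //
      ∀ k : ℕ, (μ.cells.filter (fun x => T x.1 x.2 = k)).card = w k} =>
      (⟨T13_chain T.1, ⟨_, T13_chain_GT T.1⟩, fun k => by rw [← T13_content, T.2 k]⟩ :
        {c : ℕ → ℕ → ℕ // (∃ N, IsGT N μ.rowLen c) ∧ ∀ k, wt c k = w k})) ⟨?_, ?_⟩)
  · intro T T' h
    exact Subtype.ext (T13_chain_inj (congrArg Subtype.val h))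
  · rintro ⟨c, ⟨N, hN⟩, hc⟩
    refine ⟨⟨T13_tab hN, fun k => ?_⟩, ?_⟩
    · rw [T13_content, T13_chain_tab, hc]
    · exact Subtype.ext (T13_chain_tab hN)

end MP967
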