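import Pool.Agent.Lib.MP_967fd7_co.Basic

/-! Changing one level of a chain; the toggle (Bender-Knuth involution).

Proof sketch: `sum_lo_up`: `up c k 0 = c (k+2) 0` and
`up c k (s+1) + lo c k s = c (k+2) (s+1) + c k s`. `wt_tog_left`: by `IsGT.wt_eq` with `M = k + 3`,
`wt c k` is the difference of the sums of two consecutive levels; the sum of level `k+1` of the new
chain is (sum of level `k+2`) + (sum of level `k`) - (sum of the old level `k+1`). -/

namespace MP967

/-- Lower end of the interval of admissible values of `c (k+1) s`. -/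
def lo (c : ℕ → ℕ → ℕ) (k s : ℕ) : ℕ := max (c (k + 2) (s + 1)) (c k s)

/-- Upper end of the interval of admissible values of `c (k+1) s`. -/
def up (c : ℕ → ℕ → ℕ) (k s : ℕ) : ℕ :=
  if s = 0 then c (k + 2) 0 else min (c (k + 2) s) (c k (s - 1))

theorem IsGT.lo_le {N : ℕ} {A : ℕ → ℕ} {c : ℕ → ℕ → ℕ} (h : IsGT N A c) (k s : ℕ) :
    lo c k s ≤ c (k + 1) s := by
  exact max_le (h.inter (k + 1) s) (h.mono k s)

theorem IsGT.le_up {N : ℕ} {A : ℕ → ℕ} {c : ℕ → ℕ → ℕ} (h : IsGT N A c) (k s : ℕ) :
    c (k + 1) s ≤ up c k s := by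
  unfold up
  split_ifs with hs
  · subst hs; exact h.mono (k + 1) 0
  · refine le_min (h.mono (k + 1) s) ?_
    have := h.inter k (s - 1)
    rwa [Nat.sub_add_cancel (Nat.one_le_iff_ne_zero.2 hs)] at this

/-- Replace level `k + 1` by a row vector between `lo` and `up`. -/
theorem IsGT.update {N : ℕ} {A : ℕ → ℕ} {c : ℕ → ℕ → ℕ} (h : IsGT N A c) {k : ℕ}
    (hk : k + 1 < N) {x : ℕ → ℕ} (hlo : ∀ s, lo c k s ≤ x s) (hup : ∀ s, x s ≤ up c k s) :
    IsGT N A (Function.update c (k + 1) x) := by
  have hlo1 : ∀ s, c (k + 2) (s + 1) ≤ x s := fun s => le_trans (le_max_left _ _) (hlo s)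
  have hlo2 : ∀ s, c k s ≤ x s := fun s => le_trans (le_max_right _ _) (hlo s)
  have hup1 : ∀ s, x s ≤ c (k + 2) s := by
    intro s
    refine le_trans (hup s) ?_
    unfold up
    split_ifs with hs
    · subst hs; exact le_rfl
    · exact min_le_left _ _
  have hup2 : ∀ s, x (s + 1) ≤ c k s := by
    intro s
    refine le_trans (hup (s + 1)) ?_
    unfold up
    rw [if_neg (Nat.succ_ne_zero s)]
    exact min_le_right _ _
  refine ⟨?_, ?_, ?_, ?_⟩
  · intro r
    rw [Function.update_of_ne (by omega)]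
    exact h.zero r
  · intro j r
    by_cases h1 : j = k + 1
    · subst h1
      rw [Function.update_self, Function.update_of_ne (by omega)]
      exact hup1 r
    · by_cases h2 : j = k
      · subst h2
        rw [Function.update_self, Function.update_of_ne (by omega)]
        exact hlo2 r
      · rw [Function.update_of_ne h1, Function.update_of_ne (by omega)]
        exact h.mono j r
  · intro j r
    by_cases h1 : j = k + 1
    · subst h1
      rw [Function.update_self, Function.update_of_ne (by omega)]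
      exact hlo1 r
    · by_cases h2 : j = k
      · subst h2
        rw [Function.update_self, Function.update_of_ne (by omega)]
        exact hup2 r
      · rw [Function.update_of_ne h1, Function.update_of_ne (by omega)]
        exact h.inter j r
  · intro j hj
    rw [Function.update_of_ne (by omega)]
    exact h.top j hj

theorem lo_update (c : ℕ → ℕ → ℕ) (k : ℕ) (x : ℕ → ℕ) :
    lo (Function.update c (k + 1) x) k = lo c k := by
  funext s
  simp [lo, Function.update]

theorem up_update (c : ℕ → ℕ → ℕ) (k : ℕ) (x : ℕ → ℕ) :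
    up (Function.update c (k + 1) x) k = up c k := by
  funext s
  simp [up, Function.update]

theorem T2_up_lo (c : ℕ → ℕ → ℕ) (k s : ℕ) :
    lo c k s + up c k (s + 1) = c (k + 2) (s + 1) + c k s := by
  unfold lo up
  rw [if_neg (Nat.succ_ne_zero s), Nat.add_sub_cancel]
  exact max_add_min _ _

/-- Sum of `lo` over the rows `< M` and of `up` over the rows `≤ M`, starting from row `ρ`. -/
theorem sum_lo_up (c : ℕ → ℕ → ℕ) (k M : ℕ) :
    ∑ s ∈ Finset.range M, lo c k s + ∑ s ∈ Finset.range (M + 1), up c k s =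
      ∑ s ∈ Finset.range (M + 1), c (k + 2) s + ∑ s ∈ Finset.range M, c k s := by
  induction M with
  | zero => simp [up]
  | succ M ih =>
    rw [Finset.sum_range_succ (fun s => lo c k s) M, Finset.sum_range_succ (fun s => up c k s) (M + 1),
      Finset.sum_range_succ (fun s => c (k + 2) s) (M + 1), Finset.sum_range_succ (fun s => c k s) M]
    have := T2_up_lo c k M
    omega

/-- Partial version: rows from `ρ` on. -/
theorem sum_lo_up_from (c : ℕ → ℕ → ℕ) (k ρ M : ℕ) :
    ∑ s ∈ Finset.range M, lo c k (ρ + s) + ∑ s ∈ Finset.range M, up c k (ρ + 1 + s) =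
      ∑ s ∈ Finset.range M, c (k + 2) (ρ + 1 + s) + ∑ s ∈ Finset.range M, c k (ρ + s) := by
  rw [← Finset.sum_add_distrib, ← Finset.sum_add_distrib]
  apply Finset.sum_congr rfl
  intro s _
  have := T2_up_lo c k (ρ + s)
  rwa [show ρ + s + 1 = ρ + 1 + s by omega] at this

/-- The toggle at level `k + 1`. -/
def tog (c : ℕ → ℕ → ℕ) (k : ℕ) : ℕ → ℕ → ℕ :=
  Function.update c (k + 1) (fun s => up c k s + lo c k s - c (k + 1) s)

theorem tog_GT {N : ℕ} {A : ℕ → ℕ} {c : ℕ → ℕ → ℕ} (h : IsGT N A c) {k : ℕ} (hk : k + 1 < N) :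
    IsGT N A (tog c k) := by
  apply h.update hk
  · intro s
    have h1 := h.lo_le k s
    have h2 := h.le_up k s
    omega
  · intro s
    have h1 := h.lo_le k s
    have h2 := h.le_up k s
    omega

theorem tog_tog {N : ℕ} {A : ℕ → ℕ} {c : ℕ → ℕ → ℕ} (h : IsGT N A c) (k : ℕ) :
    tog (tog c k) k = c := by
  unfold tog
  rw [lo_update, up_update]
  funext j s
  by_cases hj : j = k + 1
  · subst hj
    have h1 := h.lo_le k s
    have h2 := h.le_up k s
    simp only [Function.update_self]
    omega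
  · simp [Function.update_of_ne hj]

theorem wt_tog_left {N : ℕ} {A : ℕ → ℕ} {c : ℕ → ℕ → ℕ} (h : IsGT N A c) {k : ℕ}
    (hk : k + 1 < N) : wt (tog c k) k = wt c (k + 1) := by
  have e1 := (tog_GT h hk).wt_eq k (k + 3) (by omega)
  have e2 := h.wt_eq (k + 1) (k + 3) (by omega)
  have e3 := sum_lo_up c k (k + 2)
  have e4 : lo c k (k + 2) = 0 := by
    unfold lo
    rw [h.vanish (k + 2) (k + 2 + 1) (by omega), h.vanish k (k + 2) (by omega)]
    rfl
  have e5 : c k (k + 2) = 0 := h.vanish k (k + 2) (by omega)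
  have e6 : ∑ s ∈ Finset.range (k + 3), lo c k s + ∑ s ∈ Finset.range (k + 3), up c k s =
      ∑ s ∈ Finset.range (k + 3), c (k + 2) s + ∑ s ∈ Finset.range (k + 3), c k s := by
    rw [Finset.sum_range_succ (fun s => lo c k s) (k + 2),
      Finset.sum_range_succ (fun s => c k s) (k + 2), e4, e5]
    exact e3
  have e7 : (∑ s ∈ Finset.range (k + 3), (lo c k s : ℤ)) + ∑ s ∈ Finset.range (k + 3), (up c k s : ℤ) =
      ∑ s ∈ Finset.range (k + 3), (c (k + 2) s : ℤ) + ∑ s ∈ Finset.range (k + 3), (c k s : ℤ) := by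
    exact_mod_cast e6
  have e8 : ∀ r ∈ Finset.range (k + 3), (((tog c k) (k + 1) r : ℤ) - (tog c k) k r) =
      (lo c k r : ℤ) + up c k r - c (k + 1) r - c k r := by
    intro r _
    unfold tog
    rw [Function.update_self, Function.update_of_ne (by omega)]
    have h1 := h.lo_le k r
    have h2 := h.le_up k r
    rw [Nat.cast_sub (by omega)]
    push_cast
    ring
  rw [Finset.sum_congr rfl e8] at e1
  simp only [Finset.sum_sub_distrib, Finset.sum_add_distrib] at e1 e2
  have : (wt (tog c k) k : ℤ) = wt c (k + 1) := by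
    rw [e1, e2]
    linarith
  exact_mod_cast this

theorem wt_tog_right {N : ℕ} {A : ℕ → ℕ} {c : ℕ → ℕ → ℕ} (h : IsGT N A c) {k : ℕ}
    (hk : k + 1 < N) : wt (tog c k) (k + 1) = wt c k := by
  have := wt_tog_left (tog_GT h hk) hk
  rw [tog_tog h k] at this
  exact this.symm

theorem wt_update_other (c : ℕ → ℕ → ℕ) (k : ℕ) (x : ℕ → ℕ) {j : ℕ} (h1 : j ≠ k)
    (h2 : j ≠ k + 1) : wt (Function.update c (k + 1) x) j = wt c j := by
  unfold wt
  apply Finset.sum_congr rfl
  intro r _
  rw [Function.update_of_ne (by omega), Function.update_of_ne h2]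

end MP967
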