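import Pool.Agent.Lib.MP_967fd7_co.Cancel

/-! The case `B = 0`: the bialternant formula.

Proof sketch. `c0_good`: `∑_{s<ρ} (c0 (k+1) s - c0 k s)` is `A k` if `k < ρ` and `0` otherwise;
`∑_{s≤ρ} (c0 (k+2) s - c0 (k+1) s)` is `A (k+1)` if `k + 1 ≤ ρ` and `0` otherwise.
`good_zero_unique`: by strong induction on the row `ρ`, `c j ρ = A ρ` for all `j > ρ`: for `k ≥ ρ`
the first sum of `D 0 c ρ k` vanishes by the induction hypothesis, so `D ≥ 0` and monotonicity give
`c (k+2) ρ = c (k+1) ρ` for all `k ≥ ρ`, and eventually `c j = A`. `alt_delta_mul_S`: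
`alt_mul_S_good` with `B = 0`; the filtered set is `{c0 A}`. -/

namespace MP967

/-- The chain whose row `r` contains only the letter `r`. -/
def c0 (A : ℕ → ℕ) (k r : ℕ) : ℕ := if r < k then A r else 0

theorem c0_GT {N : ℕ} {A : ℕ → ℕ} (hA : Antitone A) (hN : ∀ r, N ≤ r → A r = 0) :
    IsGT N A (c0 A) where
  zero := by
    intro r
    simp [c0]
  mono := by
    intro k r
    unfold c0
    split_ifs
    · exact le_rfl
    · omega
    · exact Nat.zero_le _
    · exact le_rfl
  inter := by
    intro k r
    unfold c0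
    split_ifs
    · exact hA (Nat.le_succ r)
    · omega
    · exact Nat.zero_le _
    · exact le_rfl
  top := by
    intro k hk
    funext r
    unfold c0
    split_ifs with h
    · rfl
    · rw [hN r (by omega)]

theorem wt_c0 (A : ℕ → ℕ) (k : ℕ) : wt (c0 A) k = A k := by
  unfold wt
  rw [Finset.sum_eq_single k]
  · simp [c0]
  · intro r hr hrk
    rw [Finset.mem_range] at hr
    have h1 : r < k := by omega
    have h2 : r < k + 1 := by omega
    simp [c0, h1, h2]
  · intro h
    exact absurd (Finset.mem_range.2 (Nat.lt_succ_self k)) h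

theorem T8_sum_c0 (A : ℕ → ℕ) (k m : ℕ) :
    ∑ s ∈ Finset.range m, ((c0 A (k + 1) s : ℤ) - c0 A k s) = if k < m then (A k : ℤ) else 0 := by
  have h1 : ∀ s ∈ Finset.range m, ((c0 A (k + 1) s : ℤ) - c0 A k s) =
      if k = s then (A k : ℤ) else 0 := by
    intro s _
    rcases lt_trichotomy s k with h | h | h
    · have h2 : s < k + 1 := by omega
      have h3 : k ≠ s := by omega
      simp [c0, h, h2, h3]
    · subst h
      simp [c0]
    · have h2 : ¬ s < k + 1 := by omega
      have h3 : k ≠ s := by omega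
      have h4 : ¬ s < k := by omega
      simp [c0, h2, h3, h4]
  rw [Finset.sum_congr rfl h1, Finset.sum_ite_eq]
  simp [Finset.mem_range]

theorem c0_good {A : ℕ → ℕ} (hA : Antitone A) : Good (fun _ => 0) (c0 A) := by
  intro ρ k
  unfold D
  rw [T8_sum_c0, T8_sum_c0 A (k + 1) (ρ + 1)]
  have h1 : A (k + 1) ≤ A k := hA (Nat.le_succ k)
  by_cases h : k < ρ
  · rw [if_pos h, if_pos (by omega)]
    push_cast
    omega
  · rw [if_neg h, if_neg (by omega)]
    simp

theorem good_zero_unique {N : ℕ} {A : ℕ → ℕ} {c : ℕ → ℕ → ℕ} (h : IsGT N A c)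
    (hg : Good (fun _ => 0) c) : c = c0 A := by
  have key : ∀ ρ j, ρ < j → c j ρ = A ρ := by
    intro ρ
    induction ρ using Nat.strong_induction_on with
    | _ ρ ih =>
      have h1 : ∀ k, ρ ≤ k → c (k + 2) ρ = c (k + 1) ρ := by
        intro k hk
        have h2 := hg ρ k
        unfold D at h2
        rw [Finset.sum_range_succ] at h2
        have h3 : ∑ s ∈ Finset.range ρ, ((c (k + 1) s : ℤ) - c k s) = 0 := by
          apply Finset.sum_eq_zero
          intro s hs
          rw [Finset.mem_range] at hs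
          rw [ih s hs (k + 1) (by omega), ih s hs k (by omega)]
          simp
        have h4 : ∑ s ∈ Finset.range ρ, ((c (k + 2) s : ℤ) - c (k + 1) s) = 0 := by
          apply Finset.sum_eq_zero
          intro s hs
          rw [Finset.mem_range] at hs
          rw [ih s hs (k + 2) (by omega), ih s hs (k + 1) (by omega)]
          simp
        rw [h3, h4] at h2
        have h5 : c (k + 1) ρ ≤ c (k + 2) ρ := h.mono (k + 1) ρ
        simp only [Nat.cast_zero] at h2
        omega
      have h6 : ∀ t, c (ρ + 1 + t) ρ = c (ρ + 1) ρ := by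
        intro t
        induction t with
        | zero => rfl
        | succ t iht =>
          have h7 := h1 (ρ + t) (by omega)
          have h8 : ρ + 1 + (t + 1) = ρ + t + 2 := by omega
          have h9 : ρ + 1 + t = ρ + t + 1 := by omega
          rw [h8, h7, ← h9, iht]
      have h10 : c (ρ + 1) ρ = A ρ := by
        rw [← h6 N, h.top (ρ + 1 + N) (by omega)]
      intro j hj
      obtain ⟨t, rfl⟩ : ∃ t, j = ρ + 1 + t := ⟨j - (ρ + 1), by omega⟩
      rw [h6, h10]
  funext j ρ
  unfold c0
  split_ifs with hj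
  · exact key ρ j hj
  · exact h.vanish j ρ (by omega)

/-- The bialternant formula `a_δ s_A = a_{A+δ}`. -/
theorem alt_delta_mul_S {N : ℕ} {A : ℕ → ℕ} (hA : Antitone A) (hN : ∀ r, N ≤ r → A r = 0) :
    alt N (δ N) * S N A = alt N (fun i => A i + δ N i) := by
  classical
  have h1 := alt_mul_S_good (N := N) A (B := fun _ => 0) antitone_const
  have h2 : (gt N A).filter (fun c => Good (fun _ => 0) c) = {c0 A} := by
    ext c
    rw [Finset.mem_filter, mem_gt, Finset.mem_singleton]
    constructor
    · rintro ⟨h3, h4⟩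
      exact good_zero_unique h3 h4
    · rintro rfl
      exact ⟨c0_GT hA hN, c0_good hA⟩
  have h3 : (gt N A).filter (fun c => Good (fun _ => 0) c) = {c0 A} := h2
  have h4 : alt N (δ N) = alt N (fun i => (fun _ => 0) i + δ N i) := by
    apply alt_congr
    intro i _
    simp
  rw [h4, h1]
  trans ∑ c ∈ ({c0 A} : Finset (ℕ → ℕ → ℕ)), alt N (fun i => 0 + δ N i + wt c i)
  · rw [← h2]
  · rw [Finset.sum_singleton]
    apply alt_congr
    intro i _
    rw [wt_c0]
    omega

end MP967
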